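import Pool.Agent.Lib.MP_ba713f_lc.MC.Defs

/-!
Basic facts on balls, `ff` and `FF`.
-/

namespace Pool.Agent.Lib.MP_ba713f_lc.MC

theorem mem_ball_self (N : ℕ → Finset ℕ) (t a : ℕ) : a ∈ ball N t a := by
  induction t with
  | zero => simp [ball]
  | succ t ih => exact Finset.mem_union_left _ ih

theorem ball_succ_sub (N : ℕ → Finset ℕ) (t a : ℕ) : ball N t a ⊆ ball N (t + 1) a :=
  Finset.subset_union_left

theorem ball_mono (N : ℕ → Finset ℕ) {s t : ℕ} (h : s ≤ t) (a : ℕ) : ball N s a ⊆ ball N t a := by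
  induction t, h using Nat.le_induction with
  | base => exact fun _ hx => hx
  | succ t _ ih => exact ih.trans (ball_succ_sub N t a)

theorem mem_ball_of_nbr (N : ℕ → Finset ℕ) {t a u b : ℕ} (hu : u ∈ N a) (hb : b ∈ ball N t u) :
    b ∈ ball N (t + 1) a :=
  Finset.mem_union_right _ (Finset.mem_biUnion.2 ⟨u, hu, hb⟩)

theorem ball_trans (N : ℕ → Finset ℕ) {s t a b c : ℕ} (hb : b ∈ ball N s a) (hc : c ∈ ball N t b) :
    c ∈ ball N (s + t) a := by
  induction s generalizing a with
  | zero =>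
    have : b = a := by simpa [ball] using hb
    subst this
    simpa using hc
  | succ s ih =>
    rcases Finset.mem_union.1 hb with h | h
    · exact ball_mono N (by omega) a (ih h)
    · obtain ⟨u, hu, hbu⟩ := Finset.mem_biUnion.1 h
      have := mem_ball_of_nbr N hu (ih hbu)
      exact ball_mono N (by omega) a this

theorem ball_one_of_nbr (N : ℕ → Finset ℕ) {a u : ℕ} (hu : u ∈ N a) : u ∈ ball N 1 a :=
  mem_ball_of_nbr N hu (mem_ball_self N 0 u)

theorem ball_symm (N : ℕ → Finset ℕ) (hN : ∀ a b, b ∈ N a → a ∈ N b) {t a b : ℕ}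
    (hb : b ∈ ball N t a) : a ∈ ball N t b := by
  induction t generalizing a with
  | zero =>
    have : b = a := by simpa [ball] using hb
    subst this
    exact mem_ball_self N 0 _
  | succ t ih =>
    rcases Finset.mem_union.1 hb with h | h
    · exact ball_succ_sub N t b (ih h)
    · obtain ⟨u, hu, hbu⟩ := Finset.mem_biUnion.1 h
      have h1 : u ∈ ball N t b := ih hbu
      have h2 : a ∈ ball N 1 u := ball_one_of_nbr N (hN a u hu)
      exact ball_trans N h1 h2

theorem shift_le (P : Inst) (κ i q a : ℕ) : shift P κ i q a ≤ 2 * rad κ i := by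
  unfold shift rad
  have h : min (2 * κ + 14) (2 * κ + 10 + P.lev a i q - wt P κ i a) ≤ 2 * κ + 14 := min_le_left _ _
  calc 5 ^ (i + 1) * min (2 * κ + 14) (2 * κ + 10 + P.lev a i q - wt P κ i a)
      ≤ 5 ^ (i + 1) * (2 * κ + 14) := Nat.mul_le_mul_left _ h
    _ = 2 * (5 ^ (i + 1) * (κ + 7)) := by ring

/-- `ff` is positive only inside the ball of radius `2 rad`. -/
theorem mem_ball_of_ff_pos (P : Inst) {κ i q a v : ℕ} (h : 1 ≤ ff P κ i q a v) :
    a ∈ ball P.N (2 * rad κ i) v := by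
  unfold ff at h
  obtain ⟨t, ht⟩ := Finset.card_pos.1 h
  rw [Finset.mem_filter, Finset.mem_range] at ht
  exact ball_mono P.N (by have := shift_le P κ i q a; omega) v ht.2

theorem ff_lip (P : Inst) (κ i q a : ℕ) {u v : ℕ} (huv : u ∈ P.N v) :
    ff P κ i q a u ≤ ff P κ i q a v + 1 := by
  unfold ff
  set S := shift P κ i q a
  have h1 : ((Finset.range S).filter (fun t => a ∈ ball P.N t u)).card ≤
      ((Finset.range (S + 1)).filter (fun t => a ∈ ball P.N t v)).card := by
    apply Finset.card_le_card_of_injOn (fun t => t + 1)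
    · intro t ht
      rw [Finset.mem_coe, Finset.mem_filter, Finset.mem_range] at ht
      rw [Finset.mem_coe]
      show t + 1 ∈ (Finset.range (S + 1)).filter (fun t => a ∈ ball P.N t v)
      rw [Finset.mem_filter, Finset.mem_range]
      exact ⟨by omega, mem_ball_of_nbr P.N huv ht.2⟩
    · intro x _ y _ hxy
      simpa using hxy
  have h2 : ((Finset.range (S + 1)).filter (fun t => a ∈ ball P.N t v)).card ≤
      ((Finset.range S).filter (fun t => a ∈ ball P.N t v)).card + 1 := by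
    rw [Finset.range_add_one, Finset.filter_insert]
    split
    · exact Finset.card_insert_le _ _
    · omega
  omega

/-- the strongest competitor of `a` at `v` -/
theorem ff_le_sup (P : Inst) {κ i q a b v : ℕ} (hab : b ≠ a) :
    ff P κ i q b v ≤ ((ball P.N (2 * rad κ i) v).erase a).sup (fun b => ff P κ i q b v) := by
  by_cases h : 1 ≤ ff P κ i q b v
  · exact Finset.le_sup (f := fun b => ff P κ i q b v)
      (Finset.mem_erase.2 ⟨hab, mem_ball_of_ff_pos P h⟩)
  · omega

theorem sup_lip (P : Inst) (κ i q a : ℕ) {u v : ℕ} (huv : u ∈ P.N v) :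
    ((ball P.N (2 * rad κ i) u).erase a).sup (fun b => ff P κ i q b u) ≤
      ((ball P.N (2 * rad κ i) v).erase a).sup (fun b => ff P κ i q b v) + 1 := by
  apply Finset.sup_le
  intro b hb
  have hba : b ≠ a := (Finset.mem_erase.1 hb).1
  have h1 := ff_lip P κ i q b huv
  have h2 := ff_le_sup P (κ := κ) (i := i) (q := q) (v := v) hba
  show ff P κ i q b u ≤ _
  omega

theorem FF_lip (P : Inst) (hN : ∀ a b, b ∈ P.N a → a ∈ P.N b) (κ i q a : ℕ) {u v : ℕ}
    (huv : u ∈ P.N v) : FF P κ i q a u ≤ FF P κ i q a v + 2 := by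
  unfold FF
  have h1 := ff_lip P κ i q a huv
  have h2 := sup_lip P κ i q a (hN v u huv)
  omega

theorem FF_le_ff (P : Inst) (κ i q a v : ℕ) : FF P κ i q a v ≤ ff P κ i q a v := Nat.sub_le _ _

theorem mem_ball_of_FF_pos (P : Inst) {κ i q a v : ℕ} (h : 1 ≤ FF P κ i q a v) :
    a ∈ ball P.N (2 * rad κ i) v :=
  mem_ball_of_ff_pos P (h.trans (FF_le_ff P κ i q a v))

/-- In one clustering a vertex lies in at most one cluster. -/
theorem FF_unique (P : Inst) {κ i q a b v : ℕ} (ha : 1 ≤ FF P κ i q a v)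
    (hb : 1 ≤ FF P κ i q b v) : a = b := by
  by_contra hab
  have h1 := ff_le_sup P (κ := κ) (i := i) (q := q) (v := v) (a := a) (b := b) (fun h => hab h.symm)
  have h2 := ff_le_sup P (κ := κ) (i := i) (q := q) (v := v) (a := b) (b := a) hab
  unfold FF at ha hb
  omega

theorem mem_lab (P : Inst) {κ i j v : ℕ} (h : ∃ θ, Sep P κ i j v θ) (p : ℕ × ℕ) :
    p ∈ lab P κ i j v ↔ p.1 ∈ Finset.Ico (j * 5 ^ i) ((j + 1) * 5 ^ i) ∧
      thr P κ i j v ≤ FF P κ i p.1 p.2 v := by
  have hs : Sep P κ i j v (thr P κ i j v) := Nat.sInf_mem h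
  unfold lab
  rw [Finset.mem_filter, Finset.mem_product]
  constructor
  · rintro ⟨⟨h1, _⟩, h2⟩
    exact ⟨h1, h2⟩
  · rintro ⟨h1, h2⟩
    exact ⟨⟨h1, mem_ball_of_FF_pos P (hs.1.trans h2)⟩, h2⟩

end Pool.Agent.Lib.MP_ba713f_lc.MC
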