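import Pool.Agent.Lib.MP_ba713f_lc.MC.Nest

/-!
The dependency cone of a vertex is contained in a ball of radius `I * M`.
-/

namespace Pool.Agent.Lib.MP_ba713f_lc.MC

/-- The cost of one scale. -/
def cst (κ Q : ℕ) : ℕ := Q * (20 * (κ + 7) + 1)

/-- The potential of a phase. -/
def Phi (κ Q s : ℕ) : ℕ := (s / Q) * cst κ Q + (s % Q + 1) * (4 * rad κ (s / Q) + 1)

theorem phase_cost (κ Q i : ℕ) : (Q / 5 ^ i) * (4 * rad κ i + 1) ≤ cst κ Q := by
  unfold rad cst
  have h1 : Q / 5 ^ i * 5 ^ i ≤ Q := Nat.div_mul_le_self Q (5 ^ i)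
  have h2 : Q / 5 ^ i ≤ Q := Nat.div_le_self Q _
  calc (Q / 5 ^ i) * (4 * (5 ^ (i + 1) * (κ + 7)) + 1)
      = (Q / 5 ^ i * 5 ^ i) * (20 * (κ + 7)) + Q / 5 ^ i := by ring
    _ ≤ Q * (20 * (κ + 7)) + Q := Nat.add_le_add (Nat.mul_le_mul_right _ h1) h2
    _ = Q * (20 * (κ + 7) + 1) := by ring

theorem Phi_le {κ Q s : ℕ} (h : s % Q < Q / 5 ^ (s / Q)) :
    Phi κ Q s ≤ (s / Q + 1) * cst κ Q := by
  unfold Phi
  have h1 : (s % Q + 1) * (4 * rad κ (s / Q) + 1) ≤ cst κ Q :=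
    (Nat.mul_le_mul_right _ h).trans (phase_cost κ Q (s / Q))
  calc (s / Q) * cst κ Q + (s % Q + 1) * (4 * rad κ (s / Q) + 1)
      ≤ (s / Q) * cst κ Q + cst κ Q := Nat.add_le_add_left h1 _
    _ = (s / Q + 1) * cst κ Q := by ring

theorem Phi_step {κ Q s s' : ℕ} (h' : s' % Q < Q / 5 ^ (s' / Q)) (hlt : s' < s) :
    Phi κ Q s' + (4 * rad κ (s / Q) + 1) ≤ Phi κ Q s := by
  have hle : s' / Q ≤ s / Q := Nat.div_le_div_right hlt.le
  rcases Nat.lt_or_ge (s' / Q) (s / Q) with h | h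
  · have h1 := Phi_le (κ := κ) h'
    have h2 : (s' / Q + 1) * cst κ Q ≤ (s / Q) * cst κ Q := Nat.mul_le_mul_right _ h
    have h3 : 1 * (4 * rad κ (s / Q) + 1) ≤ (s % Q + 1) * (4 * rad κ (s / Q) + 1) :=
      Nat.mul_le_mul_right _ (by omega)
    have h4 : Phi κ Q s = (s / Q) * cst κ Q + (s % Q + 1) * (4 * rad κ (s / Q) + 1) := rfl
    omega
  · have heq : s' / Q = s / Q := le_antisymm hle h
    have h1 := Nat.div_add_mod s' Q
    have h2 := Nat.div_add_mod s Q
    rw [heq] at h1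
    have hmod : s' % Q < s % Q := by omega
    unfold Phi
    rw [heq]
    have h3 : (s' % Q + 1 + 1) * (4 * rad κ (s / Q) + 1) ≤
        (s % Q + 1) * (4 * rad κ (s / Q) + 1) := Nat.mul_le_mul_right _ (by omega)
    have h4 : (s' % Q + 1 + 1) * (4 * rad κ (s / Q) + 1) =
      (s' % Q + 1) * (4 * rad κ (s / Q) + 1) + (4 * rad κ (s / Q) + 1) := by ring
    omega

/-- One dependency step. -/
def Dep (P : Inst) (κ I Q : ℕ) (a b : ℕ) : Prop := b ∈ P.N a ∧ key P κ I Q b < key P κ I Q a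

theorem key_lt_iff (P : Inst) (κ I Q a b : ℕ) : key P κ I Q b < key P κ I Q a ↔
    stage P κ I Q b < stage P κ I Q a ∨ (stage P κ I Q b = stage P κ I Q a ∧
      ((slab P κ I Q b).card < (slab P κ I Q a).card ∨
        ((slab P κ I Q b).card = (slab P κ I Q a).card ∧ b < a))) := by
  unfold key
  rw [Prod.Lex.toLex_lt_toLex, Prod.Lex.toLex_lt_toLex]

theorem key_inj (P : Inst) (κ I Q : ℕ) {a b : ℕ} (h : key P κ I Q a = key P κ I Q b) : a = b := by
  unfold key at h
  have h1 := congrArg (fun x => (ofLex (ofLex x).2).2) h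
  simpa using h1

theorem dep_step (P : Inst) (hN : ∀ a b, b ∈ P.N a → a ∈ P.N b) {κ I Q a b : ℕ}
    (ha : (stages P κ I Q a).Nonempty) (hb : (stages P κ I Q b).Nonempty)
    (h : Dep P κ I Q a b) : stage P κ I Q b < stage P κ I Q a ∨
      (stage P κ I Q b = stage P κ I Q a ∧ slab P κ I Q b ⊆ slab P κ I Q a) := by
  rcases (key_lt_iff P κ I Q a b).1 h.2 with h1 | ⟨h1, h2⟩
  · exact Or.inl h1
  · refine Or.inr ⟨h1, ?_⟩
    have sa := Nat.sInf_mem ha
    have sb := Nat.sInf_mem hb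
    have sa2 : ∃ θ, Sep P κ (stage P κ I Q a / Q) (stage P κ I Q a % Q) a θ := sa.2.2
    have sb2 : ∃ θ, Sep P κ (stage P κ I Q b / Q) (stage P κ I Q b % Q) b θ := sb.2.2
    have hn := lab_nested P hN (u := b) (v := a) h.1
      (κ := κ) (i := stage P κ I Q a / Q) (j := stage P κ I Q a % Q) (by rw [← h1]; exact sb2) sa2
    unfold slab at h2 ⊢
    rw [h1] at h2 ⊢
    rcases hn with hn | hn
    · exact hn
    · rcases h2 with h2 | h2
      · exact absurd (Finset.card_le_card hn) (by omega)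
      · exact (Finset.eq_of_subset_of_card_le hn (by omega)).symm.subset

/-- **The cone bound.** -/
theorem cone_bound (P : Inst) (hN : ∀ a b, b ∈ P.N a → a ∈ P.N b) {κ I Q : ℕ} (X : ℕ → Prop)
    (hX : ∀ a, X a → ∀ b ∈ P.N a, X b) (hst : ∀ a, X a → (stages P κ I Q a).Nonempty)
    {v w : ℕ} (hv : X v) (h : Relation.ReflTransGen (Dep P κ I Q) v w) :
    w ∈ ball P.N (I * cst κ Q) v := by
  have claim : X w ∧ ∃ u r, X u ∧ stage P κ I Q u = stage P κ I Q w ∧
      slab P κ I Q w ⊆ slab P κ I Q u ∧ u ∈ ball P.N r v ∧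
      r + Phi κ Q (stage P κ I Q u) ≤ Phi κ Q (stage P κ I Q v) := by
    induction h with
    | refl => exact ⟨hv, v, 0, hv, rfl, fun _ hx => hx, mem_ball_self _ _ _, by omega⟩
    | @tail w w' _ hstep ih =>
      obtain ⟨hw, u, r, hu, h1, h2, h3, h4⟩ := ih
      have hw' : X w' := hX w hw w' hstep.1
      refine ⟨hw', ?_⟩
      rcases dep_step P hN (hst w hw) (hst w' hw') hstep with h5 | ⟨h5, h6⟩
      · refine ⟨w', r + (4 * rad κ (stage P κ I Q w / Q) + 1), hw', rfl, fun _ hx => hx, ?_, ?_⟩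
        · have su := (Nat.sInf_mem (hst u hu)).2.2
          have sw := (Nat.sInf_mem (hst w hw)).2.2
          change ∃ θ, Sep P κ (stage P κ I Q u / Q) (stage P κ I Q u % Q) u θ at su
          change ∃ θ, Sep P κ (stage P κ I Q w / Q) (stage P κ I Q w % Q) w θ at sw
          unfold slab at h2
          rw [h1] at h2 su
          have h7 := dist_of_lab_sub P hN sw su h2
          have h8 := ball_trans P.N h3 h7
          have h9 := ball_trans P.N h8 (ball_one_of_nbr P.N hstep.1)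
          exact ball_mono P.N (by omega) v h9
        · have sw' := (Nat.sInf_mem (hst w' hw')).2.1
          change stage P κ I Q w' % Q < Q / 5 ^ (stage P κ I Q w' / Q) at sw'
          have h7 := Phi_step (κ := κ) sw' h5
          rw [h1] at h4
          omega
      · exact ⟨u, r, hu, h1.trans h5.symm, h6.trans h2, h3, h4⟩
  obtain ⟨hw, u, r, hu, h1, h2, h3, h4⟩ := claim
  have su := (Nat.sInf_mem (hst u hu)).2.2
  have sw := (Nat.sInf_mem (hst w hw)).2.2
  change ∃ θ, Sep P κ (stage P κ I Q u / Q) (stage P κ I Q u % Q) u θ at su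
  change ∃ θ, Sep P κ (stage P κ I Q w / Q) (stage P κ I Q w % Q) w θ at sw
  unfold slab at h2
  rw [h1] at h2 su
  have h7 := dist_of_lab_sub P hN sw su h2
  have h8 := ball_trans P.N h3 h7
  have sv := Nat.sInf_mem (hst v hv)
  have h9 : Phi κ Q (stage P κ I Q v) ≤ (stage P κ I Q v / Q + 1) * cst κ Q := Phi_le sv.2.1
  have h10 : stage P κ I Q v < I * Q := sv.1
  have h11 : stage P κ I Q v / Q < I := by
    rw [Nat.div_lt_iff_lt_mul]
    · exact h10
    · rcases Nat.eq_zero_or_pos Q with h | h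
      · subst h; simp at h10
      · exact h
  have h12 : (stage P κ I Q v / Q + 1) * cst κ Q ≤ I * cst κ Q := Nat.mul_le_mul_right _ h11
  have h13 : 1 * (4 * rad κ (stage P κ I Q u / Q) + 1) ≤
      (stage P κ I Q u % Q + 1) * (4 * rad κ (stage P κ I Q u / Q) + 1) :=
    Nat.mul_le_mul_right _ (by omega)
  have h14 : Phi κ Q (stage P κ I Q u) = (stage P κ I Q u / Q) * cst κ Q +
      (stage P κ I Q u % Q + 1) * (4 * rad κ (stage P κ I Q u / Q) + 1) := rfl
  rw [← h1] at h8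
  exact ball_mono P.N (by omega) v h8

end Pool.Agent.Lib.MP_ba713f_lc.MC
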