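import Pool.Agent.Lib.MP_ba713f_lc.MC.Model

/-!
Definitions for the proof: the algorithm as a function on graphs of identifiers.
-/

namespace Pool.Agent.Lib.MP_ba713f_lc.MC

/-! ### Balls in a graph on the natural numbers given by neighbour sets -/

/-- The ball of radius `t` around `a`. -/
def ball (N : ℕ → Finset ℕ) : ℕ → ℕ → Finset ℕ
  | 0, a => {a}
  | t + 1, a => ball N t a ∪ (N a).biUnion (ball N t)

/-- A graph on identifiers together with the levels `lev a i q` of vertex `a` for the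
clustering number `q` of scale `i`. -/
structure Inst where
  N : ℕ → Finset ℕ
  lev : ℕ → ℕ → ℕ → ℕ

/-- The radius of scale `i`. -/
def rad (κ i : ℕ) : ℕ := 5 ^ (i + 1) * (κ + 7)

/-- The weight of a vertex at scale `i`. -/
def wt (P : Inst) (κ i a : ℕ) : ℕ := Nat.log 2 (ball P.N (4 * rad κ i) a).card

/-- The shift of a vertex in the clustering `(i, q)`. -/
def shift (P : Inst) (κ i q a : ℕ) : ℕ :=
  5 ^ (i + 1) * min (2 * κ + 14) (2 * κ + 10 + P.lev a i q - wt P κ i a)

/-- `ff P κ i q a v = max (0, shift a - dist (a, v))`. -/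
def ff (P : Inst) (κ i q a v : ℕ) : ℕ :=
  ((Finset.range (shift P κ i q a)).filter (fun t => a ∈ ball P.N t v)).card

/-- The depth of `v` in the cluster of `a` in the clustering `(i, q)`. -/
def FF (P : Inst) (κ i q a v : ℕ) : ℕ :=
  ff P κ i q a v - ((ball P.N (2 * rad κ i) v).erase a).sup (fun b => ff P κ i q b v)

/-- `θ` is a good threshold for `v` in the phase `(i, j)`. -/
def Sep (P : Inst) (κ i j v θ : ℕ) : Prop :=
  1 ≤ θ ∧ (∃ q ∈ Finset.Ico (j * 5 ^ i) ((j + 1) * 5 ^ i), ∃ a, θ + 4 ≤ FF P κ i q a v) ∧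
    ∀ q ∈ Finset.Ico (j * 5 ^ i) ((j + 1) * 5 ^ i), ∀ a,
      FF P κ i q a v < θ ∨ θ + 4 ≤ FF P κ i q a v

/-- The least good threshold. -/
noncomputable def thr (P : Inst) (κ i j v : ℕ) : ℕ := sInf {θ | Sep P κ i j v θ}

open Classical in
/-- The label of `v` in the phase `(i, j)`: the clusters in which `v` is deep. -/
noncomputable def lab (P : Inst) (κ i j v : ℕ) : Finset (ℕ × ℕ) :=
  ((Finset.Ico (j * 5 ^ i) ((j + 1) * 5 ^ i)) ×ˢ (ball P.N (2 * rad κ i) v)).filter
    (fun p => thr P κ i j v ≤ FF P κ i p.1 p.2 v)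

/-- The numbers of the phases in which `v` has a good threshold. -/
def stages (P : Inst) (κ I Q v : ℕ) : Set ℕ :=
  {s | s < I * Q ∧ s % Q < Q / 5 ^ (s / Q) ∧ ∃ θ, Sep P κ (s / Q) (s % Q) v θ}

/-- The first phase in which `v` has a good threshold. -/
noncomputable def stage (P : Inst) (κ I Q v : ℕ) : ℕ := sInf (stages P κ I Q v)

/-- The label of `v` in its stage. -/
noncomputable def slab (P : Inst) (κ I Q v : ℕ) : Finset (ℕ × ℕ) :=
  lab P κ (stage P κ I Q v / Q) (stage P κ I Q v % Q) v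

/-- The key of `v`. -/
noncomputable def key (P : Inst) (κ I Q v : ℕ) : ℕ ×ₗ ℕ ×ₗ ℕ :=
  toLex (stage P κ I Q v, toLex ((slab P κ I Q v).card, v))

/-- The least positive integer outside a finite set. -/
noncomputable def mex (S : Finset ℕ) : ℕ := sInf {c | 1 ≤ c ∧ c ∉ S}

open Classical in
/-- The greedy coloring in the order of the keys. -/
noncomputable def greedy (N : ℕ → Finset ℕ) (k : ℕ → ℕ ×ₗ ℕ ×ₗ ℕ) (a : ℕ) : ℕ :=
  mex (((N a).filter (fun b => k b < k a)).attach.image (fun b => greedy N k b.1))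
termination_by k a
decreasing_by
  have h := b.2
  rw [Finset.mem_filter] at h
  exact h.2

end Pool.Agent.Lib.MP_ba713f_lc.MC
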