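import Pool.Agent.Lib.MP_ba713f_lc.MC.Loc

/-!
The algorithm which collects the ball of radius `T` and evaluates a function of it.
-/

namespace Pool.Agent.Lib.MP_ba713f_lc.MC

/-- What a vertex knows: its identifier, the vertices it has heard of with their random inputs, and
the edges it has heard of. -/
abbrev Know (Ω : Type) : Type := ℕ × Finset (ℕ × Ω) × Finset (ℕ × ℕ)

open Classical in
/-- The union of the own knowledge, the knowledge of the neighbours, and the edges to them. -/
noncomputable def gReceive {Ω : Type} (s : Know Ω) (M : Multiset (Know Ω)) : Know Ω :=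
  (s.1, s.2.1 ∪ M.toFinset.biUnion (fun m => m.2.1),
    s.2.2 ∪ M.toFinset.biUnion (fun m => m.2.2 ∪ {(s.1, m.1), (m.1, s.1)}))

/-- Collect everything, then evaluate `out`. -/
noncomputable def gather {Ω : Type} (out : ℕ → Finset (ℕ × Ω) → Finset (ℕ × ℕ) → ℕ) :
    LocalAlgorithm Ω where
  State := Know Ω
  Msg := Know Ω
  init a w := (a, {(a, w)}, ∅)
  send s := s
  receive s M := gReceive s M
  output s := out s.1 s.2.1 s.2.2

theorem mem_gReceive_nodes {Ω : Type} (s : Know Ω) (M : Multiset (Know Ω)) (p : ℕ × Ω) :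
    p ∈ (gReceive s M).2.1 ↔ p ∈ s.2.1 ∨ ∃ m ∈ M, p ∈ m.2.1 := by
  classical
  unfold gReceive
  simp only [Finset.mem_union, Finset.mem_biUnion, Multiset.mem_toFinset]

theorem mem_gReceive_edges {Ω : Type} (s : Know Ω) (M : Multiset (Know Ω)) (p : ℕ × ℕ) :
    p ∈ (gReceive s M).2.2 ↔ p ∈ s.2.2 ∨
      ∃ m ∈ M, p ∈ m.2.2 ∨ p = (s.1, m.1) ∨ p = (m.1, s.1) := by
  classical
  unfold gReceive
  simp only [Finset.mem_union, Finset.mem_biUnion, Multiset.mem_toFinset, Finset.mem_insert,
    Finset.mem_singleton]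

section

variable {V : Type} [Fintype V] {Ω : Type} (G : SimpleGraph V) (id : V → ℕ) (ω : V → Ω)

theorem mem_nbr {u v : V} : u ∈ nbr G v ↔ G.Adj v u := by
  classical
  unfold nbr
  simp

open Classical in
/-- Balls in `G`. -/
noncomputable def bV : ℕ → V → Finset V
  | 0, v => {v}
  | t + 1, v => bV t v ∪ (nbr G v).biUnion (fun u => bV t u)

theorem mem_bV_self (t : ℕ) (v : V) : v ∈ bV G t v := by
  classical
  induction t with
  | zero => exact Finset.mem_singleton_self v
  | succ t ih => exact Finset.mem_union_left _ ih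

/-- The knowledge after `t` rounds. -/
noncomputable def gst : ℕ → V → Know Ω
  | 0, v => (id v, {(id v, ω v)}, ∅)
  | t + 1, v => gReceive (gst t v) ((nbr G v).val.map (fun u => gst t u))

theorem gather_state_eq (out : ℕ → Finset (ℕ × Ω) → Finset (ℕ × ℕ) → ℕ) (t : ℕ) (v : V) :
    (gather out).state G id ω t v = gst G id ω t v := by
  induction t generalizing v with
  | zero => rfl
  | succ t ih =>
    show gReceive ((gather out).state G id ω t v)
      ((nbr G v).val.map fun u => (gather out).state G id ω t u) = _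
    have h1 : (fun u => (gather out).state G id ω t u) = (fun u => gst G id ω t u) := by
      funext u
      exact ih u
    rw [h1]
    exact congrArg (fun s => gReceive s ((nbr G v).val.map (fun u => gst G id ω t u))) (ih v)

theorem gst_spec (t : ℕ) (v : V) :
    (gst G id ω t v).1 = id v ∧
    (∀ p, p ∈ (gst G id ω t v).2.1 ↔ ∃ u ∈ bV G t v, p = (id u, ω u)) ∧
    (∀ p, p ∈ (gst G id ω t v).2.2 ↔ ∃ u w, G.Adj u w ∧ p = (id u, id w) ∧
      ∃ s, s < t ∧ (u ∈ bV G s v ∨ w ∈ bV G s v)) := by
  classical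
  induction t generalizing v with
  | zero =>
    refine ⟨rfl, ?_, ?_⟩
    · intro p
      show p ∈ ({(id v, ω v)} : Finset (ℕ × Ω)) ↔ _
      rw [Finset.mem_singleton]
      constructor
      · intro h
        exact ⟨v, mem_bV_self G 0 v, h⟩
      · rintro ⟨u, hu, h⟩
        have : u = v := by simpa [bV] using hu
        rw [h, this]
    · intro p
      show p ∈ (∅ : Finset (ℕ × ℕ)) ↔ _
      constructor
      · intro h; simp at h
      · rintro ⟨u, w, _, _, s, hs, _⟩; omega
  | succ t ih =>
    obtain ⟨h1, h2, h3⟩ := ih v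
    have hmap : ∀ m : Know Ω, m ∈ (nbr G v).val.map (fun u => gst G id ω t u) ↔
        ∃ x, G.Adj v x ∧ gst G id ω t x = m := by
      intro m
      rw [Multiset.mem_map]
      constructor
      · rintro ⟨x, hx, hm⟩
        exact ⟨x, (mem_nbr G).1 hx, hm⟩
      · rintro ⟨x, hx, hm⟩
        exact ⟨x, (mem_nbr G).2 hx, hm⟩
    refine ⟨h1, ?_, ?_⟩
    · intro p
      show p ∈ (gReceive (gst G id ω t v) ((nbr G v).val.map (fun u => gst G id ω t u))).2.1 ↔ _
      rw [mem_gReceive_nodes, h2]
      constructor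
      · rintro (⟨u, hu, hp⟩ | ⟨m, hm, hp⟩)
        · exact ⟨u, Finset.mem_union_left _ hu, hp⟩
        · obtain ⟨x, hx, rfl⟩ := (hmap m).1 hm
          obtain ⟨u, hu, hp'⟩ := ((ih x).2.1 p).1 hp
          exact ⟨u, Finset.mem_union_right _ (Finset.mem_biUnion.2 ⟨x, (mem_nbr G).2 hx, hu⟩), hp'⟩
      · rintro ⟨u, hu, hp⟩
        rcases Finset.mem_union.1 hu with h | h
        · exact Or.inl ⟨u, h, hp⟩
        · obtain ⟨x, hx, hux⟩ := Finset.mem_biUnion.1 h
          right
          exact ⟨_, (hmap _).2 ⟨x, (mem_nbr G).1 hx, rfl⟩, ((ih x).2.1 p).2 ⟨u, hux, hp⟩⟩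
    · intro p
      show p ∈ (gReceive (gst G id ω t v) ((nbr G v).val.map (fun u => gst G id ω t u))).2.2 ↔ _
      rw [mem_gReceive_edges, h3, h1]
      constructor
      · rintro (⟨u, w, ha, hp, s, hs, h⟩ | ⟨m, hm, hp⟩)
        · exact ⟨u, w, ha, hp, s, by omega, h⟩
        · obtain ⟨x, hx, rfl⟩ := (hmap m).1 hm
          rcases hp with hp | hp | hp
          · obtain ⟨u, w, ha, hp', s, hs, h⟩ := ((ih x).2.2 p).1 hp
            refine ⟨u, w, ha, hp', s + 1, by omega, ?_⟩
            rcases h with h | h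
            · exact Or.inl (Finset.mem_union_right _
                (Finset.mem_biUnion.2 ⟨x, (mem_nbr G).2 hx, h⟩))
            · exact Or.inr (Finset.mem_union_right _
                (Finset.mem_biUnion.2 ⟨x, (mem_nbr G).2 hx, h⟩))
          · rw [(ih x).1] at hp
            exact ⟨v, x, hx, hp, 0, by omega, Or.inl (mem_bV_self G 0 v)⟩
          · rw [(ih x).1] at hp
            exact ⟨x, v, hx.symm, hp, 0, by omega, Or.inr (mem_bV_self G 0 v)⟩
      · rintro ⟨u, w, ha, hp, s, hs, h⟩
        rcases Nat.lt_or_ge s t with hst' | hst'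
        · exact Or.inl ⟨u, w, ha, hp, s, hst', h⟩
        · have hs' : s = t := by omega
          subst hs'
          rcases Nat.eq_zero_or_pos s with h0 | h0
          · subst h0
            right
            rcases h with h | h
            · have hu : u = v := by simpa [bV] using h
              subst hu
              refine ⟨_, (hmap _).2 ⟨w, ha, rfl⟩, ?_⟩
              rw [(ih w).1]
              exact Or.inr (Or.inl hp)
            · have hw : w = v := by simpa [bV] using h
              subst hw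
              refine ⟨_, (hmap _).2 ⟨u, ha.symm, rfl⟩, ?_⟩
              rw [(ih u).1]
              exact Or.inr (Or.inr hp)
          · obtain ⟨r, rfl⟩ : ∃ r, s = r + 1 := ⟨s - 1, by omega⟩
            have hcase : ∀ y : V, y ∈ bV G (r + 1) v → y ∈ bV G r v ∨
                ∃ x, G.Adj v x ∧ y ∈ bV G r x := by
              intro y hy
              rcases Finset.mem_union.1 hy with h | h
              · exact Or.inl h
              · obtain ⟨x, hx, hyx⟩ := Finset.mem_biUnion.1 h
                exact Or.inr ⟨x, (mem_nbr G).1 hx, hyx⟩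
            rcases h with h | h
            · rcases hcase u h with h' | ⟨x, hx, h'⟩
              · exact Or.inl ⟨u, w, ha, hp, r, by omega, Or.inl h'⟩
              · right
                exact ⟨_, (hmap _).2 ⟨x, hx, rfl⟩,
                  Or.inl (((ih x).2.2 p).2 ⟨u, w, ha, hp, r, by omega, Or.inl h'⟩)⟩
            · rcases hcase w h with h' | ⟨x, hx, h'⟩
              · exact Or.inl ⟨u, w, ha, hp, r, by omega, Or.inr h'⟩
              · right
                exact ⟨_, (hmap _).2 ⟨x, hx, rfl⟩,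
                  Or.inl (((ih x).2.2 p).2 ⟨u, w, ha, hp, r, by omega, Or.inr h'⟩)⟩

open Classical in
/-- The graph on the identifiers. -/
noncomputable def pushN : ℕ → Finset ℕ := fun a =>
  (Finset.univ.filter (fun v => id v = a)).biUnion (fun v => (nbr G v).image id)

variable {id}

theorem mem_pushN (hid : Function.Injective id) {v : V} {b : ℕ} :
    b ∈ pushN G id (id v) ↔ ∃ u, G.Adj v u ∧ b = id u := by
  classical
  unfold pushN
  rw [Finset.mem_biUnion]
  constructor
  · rintro ⟨x, hx, hb⟩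
    rw [Finset.mem_filter] at hx
    have : x = v := hid hx.2
    subst this
    obtain ⟨u, hu, rfl⟩ := Finset.mem_image.1 hb
    exact ⟨u, (mem_nbr G).1 hu, rfl⟩
  · rintro ⟨u, hu, rfl⟩
    exact ⟨v, Finset.mem_filter.2 ⟨Finset.mem_univ _, rfl⟩,
      Finset.mem_image_of_mem _ ((mem_nbr G).2 hu)⟩

theorem pushN_range {a b : ℕ} (h : b ∈ pushN G id a) : ∃ v u, a = id v ∧ b = id u ∧ G.Adj v u := by
  classical
  unfold pushN at h
  obtain ⟨x, hx, hb⟩ := Finset.mem_biUnion.1 h
  obtain ⟨u, hu, rfl⟩ := Finset.mem_image.1 hb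
  exact ⟨x, u, (Finset.mem_filter.1 hx).2.symm, rfl, (mem_nbr G).1 hu⟩

theorem pushN_symm (hid : Function.Injective id) (a b : ℕ) (h : b ∈ pushN G id a) :
    a ∈ pushN G id b := by
  obtain ⟨v, u, rfl, rfl, h'⟩ := pushN_range G h
  exact (mem_pushN G hid).2 ⟨v, h'.symm, rfl⟩

theorem mem_ball_pushN (hid : Function.Injective id) (t : ℕ) (v : V) (b : ℕ) :
    b ∈ ball (pushN G id) t (id v) ↔ ∃ u ∈ bV G t v, b = id u := by
  classical
  induction t generalizing v with
  | zero =>
    show b ∈ ({id v} : Finset ℕ) ↔ _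
    rw [Finset.mem_singleton]
    constructor
    · intro h; exact ⟨v, mem_bV_self G 0 v, h⟩
    · rintro ⟨u, hu, h⟩
      have : u = v := by simpa [bV] using hu
      rw [h, this]
  | succ t ih =>
    show b ∈ ball (pushN G id) t (id v) ∪ (pushN G id (id v)).biUnion (ball (pushN G id) t) ↔ _
    rw [Finset.mem_union, ih, Finset.mem_biUnion]
    constructor
    · rintro (⟨u, hu, h⟩ | ⟨x, hx, h⟩)
      · exact ⟨u, Finset.mem_union_left _ hu, h⟩
      · obtain ⟨x', hx', rfl⟩ := (mem_pushN G hid).1 hx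
        obtain ⟨u, hu, h'⟩ := (ih x').1 h
        exact ⟨u, Finset.mem_union_right _ (Finset.mem_biUnion.2 ⟨x', (mem_nbr G).2 hx', hu⟩), h'⟩
    · rintro ⟨u, hu, h⟩
      rcases Finset.mem_union.1 hu with h1 | h1
      · exact Or.inl ⟨u, h1, h⟩
      · obtain ⟨x, hx, hux⟩ := Finset.mem_biUnion.1 h1
        exact Or.inr ⟨id x, (mem_pushN G hid).2 ⟨x, (mem_nbr G).1 hx, rfl⟩, (ih x).2 ⟨u, hux, h⟩⟩

variable (id)

open Classical in
/-- The true instance. -/
noncomputable def trueInst (levΩ : Ω → ℕ → ℕ → ℕ) : Inst where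
  N := pushN G id
  lev a i q := if h : ∃ v, id v = a then levΩ (ω h.choose) i q else 0

open Classical in
/-- The instance which a vertex reconstructs from its knowledge. -/
noncomputable def knowInst (levΩ : Ω → ℕ → ℕ → ℕ) (nodes : Finset (ℕ × Ω))
    (edges : Finset (ℕ × ℕ)) : Inst where
  N a := (edges.filter (fun p => p.1 = a)).image Prod.snd
  lev a i q := if h : ∃ w, (a, w) ∈ nodes then levΩ h.choose i q else 0

variable {id}

theorem trueInst_lev (hid : Function.Injective id) (levΩ : Ω → ℕ → ℕ → ℕ) (v : V) (i q : ℕ) :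
    (trueInst G id ω levΩ).lev (id v) i q = levΩ (ω v) i q := by
  classical
  have hex : ∃ v', id v' = id v := ⟨v, rfl⟩
  show (if h : ∃ v', id v' = id v then levΩ (ω h.choose) i q else 0) = _
  rw [dif_pos hex]
  have := hid hex.choose_spec
  rw [this]

theorem know_agree (hid : Function.Injective id) (levΩ : Ω → ℕ → ℕ → ℕ)
    (T : ℕ) (hT : 1 ≤ T) (v : V) :
    Agree (trueInst G id ω levΩ) (knowInst levΩ (gst G id ω T v).2.1
      (gst G id ω T v).2.2) T (id v) := by
  classical
  obtain ⟨h1, h2, h3⟩ := gst_spec G id ω T v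
  constructor
  · intro a ha
    obtain ⟨u, hu, rfl⟩ := (mem_ball_pushN G hid (T - 1) v a).1 ha
    ext b
    show b ∈ (((gst G id ω T v).2.2).filter (fun p => p.1 = id u)).image Prod.snd ↔
      b ∈ pushN G id (id u)
    rw [mem_pushN G hid, Finset.mem_image]
    constructor
    · rintro ⟨p, hp, rfl⟩
      rw [Finset.mem_filter, h3] at hp
      obtain ⟨⟨x, y, hxy, hpp, _⟩, hp1⟩ := hp
      rw [hpp] at hp1 ⊢
      have : x = u := hid hp1
      subst this
      exact ⟨y, hxy, rfl⟩
    · rintro ⟨w, hw, rfl⟩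
      refine ⟨(id u, id w), ?_, rfl⟩
      rw [Finset.mem_filter, h3]
      exact ⟨⟨u, w, hw, rfl, T - 1, by omega, Or.inl hu⟩, rfl⟩
  · intro a ha
    obtain ⟨u, hu, rfl⟩ := (mem_ball_pushN G hid T v a).1 ha
    funext i q
    rw [trueInst_lev G ω hid]
    have hex : ∃ w, (id u, w) ∈ (gst G id ω T v).2.1 :=
      ⟨ω u, (h2 _).2 ⟨u, hu, rfl⟩⟩
    show (if h : ∃ w, (id u, w) ∈ (gst G id ω T v).2.1 then
      levΩ h.choose i q else 0) = _
    rw [dif_pos hex]
    obtain ⟨x, _, hx⟩ := (h2 _).1 hex.choose_spec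
    rw [Prod.mk.injEq] at hx
    have : u = x := hid hx.1
    subst this
    rw [hx.2]

end

/-- The output function of the algorithm. -/
noncomputable def outFn {Ω : Type} (levΩ : Ω → ℕ → ℕ → ℕ) (κ I Q : ℕ) :
    ℕ → Finset (ℕ × Ω) → Finset (ℕ × ℕ) → ℕ := fun a nodes edges =>
  greedy (knowInst levΩ nodes edges).N (key (knowInst levΩ nodes edges) κ I Q) a

/-- **If all vertices have a stage then the algorithm outputs a minimal coloring.** -/
theorem alg_correct {V : Type} [Fintype V] {Ω : Type} (G : SimpleGraph V) (id : V → ℕ)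
    (ω : V → Ω) (hid : Function.Injective id) (levΩ : Ω → ℕ → ℕ → ℕ) {κ I Q T : ℕ} (hI : 1 ≤ I)
    (hT : I * cst κ Q + 6 * (5 ^ I * (κ + 7)) + 2 ≤ T)
    (hst : ∀ v, (stages (trueInst G id ω levΩ) κ I Q (id v)).Nonempty) :
    IsMinimalColoring G (fun v => (gather (outFn levΩ κ I Q)).output
      ((gather (outFn levΩ κ I Q)).state G id ω T v)) := by
  classical
  set P := trueInst G id ω levΩ with hP
  have hN : ∀ a b, b ∈ P.N a → a ∈ P.N b := fun a b h => pushN_symm G hid a b h
  have hval : ∀ v, (gather (outFn levΩ κ I Q)).output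
      ((gather (outFn levΩ κ I Q)).state G id ω T v) = greedy P.N (key P κ I Q) (id v) := by
    intro v
    have h1 := (gst_spec G id ω T v).1
    have h2 := know_agree G ω hid levΩ T (by omega) v
    have h3 := color_agree (P := P) hN (κ := κ) (I := I) (Q := Q) hI (fun a => ∃ v, a = id v)
      (by
        rintro a ⟨v, rfl⟩ b hb
        obtain ⟨u, _, hu⟩ := (mem_pushN G hid).1 hb
        exact ⟨u, hu⟩)
      (by
        rintro a ⟨v, rfl⟩
        exact hst v) (v₀ := id v) ⟨v, rfl⟩ hT h2
    rw [gather_state_eq]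
    show greedy _ _ ((gst G id ω T v).1) = _
    rw [h1]
    exact h3
  have hkey : ∀ u v, G.Adj u v → greedy P.N (key P κ I Q) (id u) ≠
      greedy P.N (key P κ I Q) (id v) := by
    intro u v huv
    have h1 : id v ∈ P.N (id u) := (mem_pushN G hid).2 ⟨v, huv, rfl⟩
    have h2 : id u ∈ P.N (id v) := hN _ _ h1
    rcases lt_trichotomy (key P κ I Q (id u)) (key P κ I Q (id v)) with h | h | h
    · exact greedy_ne_of_lt P.N _ h2 h
    · have := key_inj P κ I Q h
      exact absurd (hid this) huv.ne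
    · exact (greedy_ne_of_lt P.N _ h1 h).symm
  refine ⟨?_, ?_, ?_⟩
  · intro v
    show 1 ≤ (gather (outFn levΩ κ I Q)).output _
    rw [hval]
    exact greedy_pos _ _ _
  · intro u v huv
    show (gather (outFn levΩ κ I Q)).output _ ≠ (gather (outFn levΩ κ I Q)).output _
    rw [hval, hval]
    exact hkey u v huv
  · intro v j h1 h2
    have h2' : j < greedy P.N (key P κ I Q) (id v) := by
      rw [← hval]; exact h2
    obtain ⟨b, hb, hbj⟩ := greedy_minimal P.N _ h1 h2'
    obtain ⟨u, hu, rfl⟩ := (mem_pushN G hid).1 hb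
    refine ⟨u, hu, ?_⟩
    show (gather (outFn levΩ κ I Q)).output _ = j
    rw [hval]
    exact hbj

end Pool.Agent.Lib.MP_ba713f_lc.MC
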