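import Pool.Agent.Lib.MP_ba713f_lc.MC.Cone

/-!
The greedy coloring is minimal and depends only on the dependency cone.
-/

namespace Pool.Agent.Lib.MP_ba713f_lc.MC

theorem mex_mem (S : Finset ℕ) : 1 ≤ mex S ∧ mex S ∉ S := by
  have hne : {c | 1 ≤ c ∧ c ∉ S}.Nonempty := by
    obtain ⟨M, hM⟩ := S.bddAbove
    refine ⟨M + 1, by omega, fun h => ?_⟩
    have := hM (Finset.mem_coe.2 h)
    omega
  exact Nat.sInf_mem hne

theorem mem_of_lt_mex {S : Finset ℕ} {j : ℕ} (h1 : 1 ≤ j) (h2 : j < mex S) : j ∈ S := by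
  by_contra h
  have := Nat.sInf_le (s := {c | 1 ≤ c ∧ c ∉ S}) ⟨h1, h⟩
  unfold mex at h2
  omega

open Classical in
theorem greedy_eq (N : ℕ → Finset ℕ) (k : ℕ → ℕ ×ₗ ℕ ×ₗ ℕ) (a : ℕ) :
    greedy N k a = mex (((N a).filter (fun b => k b < k a)).image (greedy N k)) := by
  rw [greedy]
  congr 1
  ext c
  simp only [Finset.mem_image, Finset.mem_attach, true_and, Subtype.exists, Finset.mem_filter,
    exists_prop]

theorem greedy_pos (N : ℕ → Finset ℕ) (k : ℕ → ℕ ×ₗ ℕ ×ₗ ℕ) (a : ℕ) : 1 ≤ greedy N k a := by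
  classical
  rw [greedy_eq]
  exact (mex_mem _).1

theorem greedy_ne_of_lt (N : ℕ → Finset ℕ) (k : ℕ → ℕ ×ₗ ℕ ×ₗ ℕ) {a b : ℕ} (hb : b ∈ N a)
    (h : k b < k a) : greedy N k b ≠ greedy N k a := by
  classical
  intro he
  have h1 := (mex_mem (((N a).filter (fun b => k b < k a)).image (greedy N k))).2
  rw [← greedy_eq] at h1
  apply h1
  rw [← he]
  exact Finset.mem_image_of_mem _ (Finset.mem_filter.2 ⟨hb, h⟩)

theorem greedy_minimal (N : ℕ → Finset ℕ) (k : ℕ → ℕ ×ₗ ℕ ×ₗ ℕ) {a j : ℕ} (h1 : 1 ≤ j)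
    (h2 : j < greedy N k a) : ∃ b ∈ N a, greedy N k b = j := by
  classical
  rw [greedy_eq] at h2
  obtain ⟨b, hb, hbj⟩ := Finset.mem_image.1 (mem_of_lt_mex h1 h2)
  exact ⟨b, (Finset.mem_filter.1 hb).1, hbj⟩

/-- Locality of the greedy coloring. -/
theorem greedy_local (N N' : ℕ → Finset ℕ) (k k' : ℕ → ℕ ×ₗ ℕ ×ₗ ℕ) (v : ℕ)
    (h : ∀ w, Relation.ReflTransGen (fun a b => b ∈ N a ∧ k b < k a) v w →
      N' w = N w ∧ k' w = k w ∧ ∀ b ∈ N w, k' b = k b) :
    greedy N' k' v = greedy N k v := by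
  classical
  have key : ∀ x : ℕ ×ₗ ℕ ×ₗ ℕ, ∀ w, k w = x →
      Relation.ReflTransGen (fun a b => b ∈ N a ∧ k b < k a) v w →
      greedy N' k' w = greedy N k w := by
    intro x
    induction x using WellFoundedLT.induction with
    | ind x ih =>
      intro w hw hr
      obtain ⟨h1, h2, h3⟩ := h w hr
      rw [greedy_eq, greedy_eq, h1, h2]
      congr 1
      have hf : (N w).filter (fun b => k' b < k w) = (N w).filter (fun b => k b < k w) := by
        apply Finset.filter_congr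
        intro b hb
        rw [h3 b hb]
      rw [hf]
      apply Finset.image_congr
      intro b hb
      rw [Finset.mem_coe, Finset.mem_filter] at hb
      exact ih (k b) (hw ▸ hb.2) b rfl (hr.tail hb)
  exact key _ v rfl Relation.ReflTransGen.refl

end Pool.Agent.Lib.MP_ba713f_lc.MC
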