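import Mathlib

/-!
The probability that a vertex is deep in its cluster, for one random clustering.
-/

namespace Pool.Agent.Lib.MP_ba713f_lc.MC

section

variable {V : Type} [Fintype V] [DecidableEq V] {Ω₀ : Type} [Fintype Ω₀]

/-- truncated level -/
def kx (κ : ℕ) (L : Ω₀ → ℕ) (w : V → ℕ) (x : V) (u : Ω₀) : ℕ :=
  min (2 * κ + 14) (2 * κ + 10 + L u - w x)

/-- the value of the cluster of `x` at the fixed vertex -/
def fv (κ g : ℕ) (L : Ω₀ → ℕ) (d w : V → ℕ) (x : V) (u : Ω₀) : ℕ :=
  g * kx κ L w x u - d x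

omit [Fintype V] [DecidableEq V] in
theorem tail_card (κ m : ℕ) (L : Ω₀ → ℕ) (w : V → ℕ)
    (hL : ∀ k ≤ m, 2 ^ k * (Finset.univ.filter (fun u : Ω₀ => k ≤ L u)).card = Fintype.card Ω₀)
    (x : V) (hm : 2 * κ + 14 + w x ≤ m) {k : ℕ} (h1 : 1 ≤ k) (h2 : k ≤ 2 * κ + 14) :
    2 ^ (k + w x - (2 * κ + 10)) *
      (Finset.univ.filter (fun u : Ω₀ => k ≤ kx κ L w x u)).card = Fintype.card Ω₀ := by
  rw [← hL (k + w x - (2 * κ + 10)) (by omega)]
  congr 2
  apply Finset.filter_congr
  intro u _
  unfold kx
  rw [le_min_iff]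
  constructor
  · rintro ⟨_, h⟩
    omega
  · intro h
    exact ⟨h2, by omega⟩

omit [Fintype V] [DecidableEq V] in
/-- the halving step -/
theorem step_card (κ g m : ℕ) (hg : 1 ≤ g) (L : Ω₀ → ℕ) (d w : V → ℕ)
    (hL : ∀ k ≤ m, 2 ^ k * (Finset.univ.filter (fun u : Ω₀ => k ≤ L u)).card = Fintype.card Ω₀)
    (x : V) (hm : 2 * κ + 14 + w x ≤ m) {t : ℕ} (ht : 1 ≤ t) :
    (Finset.univ.filter (fun u : Ω₀ => t ≤ fv κ g L d w x u)).card ≤
      2 * (Finset.univ.filter (fun u : Ω₀ => t + g ≤ fv κ g L d w x u)).card +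
      (if d x < g * (2 * κ + 14) then
        (Finset.univ.filter (fun u : Ω₀ => 2 * κ + 14 ≤ kx κ L w x u)).card else 0) := by
  by_cases hd : d x < g * (2 * κ + 14)
  · rw [if_pos hd]
    set k := (t + d x + g - 1) / g with hk
    have hceil : ∀ j, k ≤ j ↔ t + d x ≤ g * j := by
      intro j
      rw [hk]
      have h1 : (t + d x + g - 1) / g ≤ j ↔ (t + d x + g - 1) / g < j + 1 := by omega
      rw [h1, Nat.div_lt_iff_lt_mul hg]
      have h2 : (j + 1) * g = g * j + g := by ring
      rw [h2]
      omega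
    have hk1 : 1 ≤ k := by
      by_contra h
      have := (hceil 0).1 (by omega)
      omega
    have e1 : (Finset.univ.filter (fun u : Ω₀ => t ≤ fv κ g L d w x u)) =
        Finset.univ.filter (fun u : Ω₀ => k ≤ kx κ L w x u) := by
      apply Finset.filter_congr
      intro u _
      rw [hceil]
      unfold fv
      omega
    have e2 : (Finset.univ.filter (fun u : Ω₀ => t + g ≤ fv κ g L d w x u)) =
        Finset.univ.filter (fun u : Ω₀ => k + 1 ≤ kx κ L w x u) := by
      apply Finset.filter_congr
      intro u _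
      have h3 : k + 1 ≤ kx κ L w x u ↔ t + d x + g ≤ g * kx κ L w x u := by
        constructor
        · intro h
          have := (hceil (kx κ L w x u - 1)).1 (by omega)
          have h4 : g * kx κ L w x u = g * (kx κ L w x u - 1) + g := by
            obtain ⟨r, hr⟩ : ∃ r, kx κ L w x u = r + 1 := ⟨kx κ L w x u - 1, by omega⟩
            rw [hr]
            simp only [Nat.add_sub_cancel]
            ring
          omega
        · intro h
          have hpos : 1 ≤ kx κ L w x u := by
            by_contra hc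
            have : kx κ L w x u = 0 := by omega
            rw [this, Nat.mul_zero] at h
            omega
          obtain ⟨r, hr⟩ : ∃ r, kx κ L w x u = r + 1 := ⟨kx κ L w x u - 1, by omega⟩
          rw [hr] at h ⊢
          have h4 : g * (r + 1) = g * r + g := by ring
          have := (hceil r).2 (by omega)
          omega
      rw [h3]
      unfold fv
      omega
    rw [e1, e2]
    by_cases hK : k + 1 ≤ 2 * κ + 14
    · have t1 := tail_card κ m L w hL x hm (k := k) hk1 (by omega)
      have t2 := tail_card κ m L w hL x hm (k := k + 1) (by omega) hK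
      set A := (Finset.univ.filter (fun u : Ω₀ => k ≤ kx κ L w x u)).card
      set B := (Finset.univ.filter (fun u : Ω₀ => k + 1 ≤ kx κ L w x u)).card
      have h5 : 2 ^ (k + 1 + w x - (2 * κ + 10)) ≤ 2 ^ (k + w x - (2 * κ + 10) + 1) :=
        Nat.pow_le_pow_right (by norm_num) (by omega)
      have h6 : 2 ^ (k + w x - (2 * κ + 10)) * A ≤ 2 ^ (k + w x - (2 * κ + 10)) * (2 * B) := by
        calc 2 ^ (k + w x - (2 * κ + 10)) * A = 2 ^ (k + 1 + w x - (2 * κ + 10)) * B := by
              rw [t1, t2]
          _ ≤ 2 ^ (k + w x - (2 * κ + 10) + 1) * B := Nat.mul_le_mul_right _ h5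
          _ = 2 ^ (k + w x - (2 * κ + 10)) * (2 * B) := by ring
      have h7 : A ≤ 2 * B := Nat.le_of_mul_le_mul_left h6 (by positivity)
      omega
    · have h8 : (Finset.univ.filter (fun u : Ω₀ => k ≤ kx κ L w x u)).card ≤
          (Finset.univ.filter (fun u : Ω₀ => 2 * κ + 14 ≤ kx κ L w x u)).card := by
        apply Finset.card_le_card
        intro u hu
        rw [Finset.mem_filter] at hu ⊢
        exact ⟨hu.1, by omega⟩
      omega
  · rw [if_neg hd]
    have e1 : (Finset.univ.filter (fun u : Ω₀ => t ≤ fv κ g L d w x u)) = ∅ := by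
      apply Finset.filter_eq_empty_iff.2
      intro u _ h
      unfold fv at h
      have h9 : g * kx κ L w x u ≤ g * (2 * κ + 14) := Nat.mul_le_mul_left _ (min_le_left _ _)
      omega
    rw [e1]
    simp

/-- resampling one coordinate -/
theorem resample (x : V) (p : (V → Ω₀) → Prop) [DecidablePred p] :
    Fintype.card Ω₀ * (Finset.univ.filter (fun ω : V → Ω₀ => p ω)).card =
      ∑ ω : V → Ω₀, (Finset.univ.filter (fun u : Ω₀ => p (Function.update ω x u))).card := by
  let e : ((V → Ω₀) × Ω₀) ≃ ((V → Ω₀) × Ω₀) :=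
    { toFun := fun q => (Function.update q.1 x q.2, q.1 x)
      invFun := fun q => (Function.update q.1 x q.2, q.1 x)
      left_inv := by
        rintro ⟨ω, u⟩
        simp
      right_inv := by
        rintro ⟨ω, u⟩
        simp }
  have h1 : ∑ q : (V → Ω₀) × Ω₀, (if p (Function.update q.1 x q.2) then (1 : ℕ) else 0) =
      ∑ q : (V → Ω₀) × Ω₀, (if p q.1 then (1 : ℕ) else 0) :=
    Fintype.sum_equiv e _ _ (fun q => rfl)
  rw [Fintype.sum_prod_type, Fintype.sum_prod_type] at h1
  have h2 : ∑ ω : V → Ω₀, ∑ _u : Ω₀, (if p ω then (1 : ℕ) else 0) =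
      Fintype.card Ω₀ * (Finset.univ.filter (fun ω : V → Ω₀ => p ω)).card := by
    rw [Finset.card_filter, Finset.mul_sum]
    apply Finset.sum_congr rfl
    intro ω _
    rw [Finset.sum_const, Finset.card_univ, smul_eq_mul]
  have h3 : ∑ ω : V → Ω₀, ∑ u : Ω₀, (if p (Function.update ω x u) then (1 : ℕ) else 0) =
      ∑ ω : V → Ω₀, (Finset.univ.filter (fun u : Ω₀ => p (Function.update ω x u))).card := by
    apply Finset.sum_congr rfl
    intro ω _
    rw [Finset.card_filter]
  rw [← h2, ← h3]
  exact h1.symm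

theorem ldd (κ g m : ℕ) (hg : 1 ≤ g) (L : Ω₀ → ℕ) (d w : V → ℕ)
    (hL : ∀ k ≤ m, 2 ^ k * (Finset.univ.filter (fun u : Ω₀ => k ≤ L u)).card = Fintype.card Ω₀)
    (hpos : 0 < Fintype.card Ω₀) (hm : ∀ x, 2 * κ + 14 + w x ≤ m)
    (H1 : ∑ x ∈ Finset.univ.filter (fun x => d x < g * (2 * κ + 14)), (1 / 2 : ℝ) ^ (w x) ≤ 2)
    (H2 : (1 / 2 : ℝ) ^ κ ≤
      ∑ x ∈ Finset.univ.filter (fun x => d x ≤ g * (κ + 7)), (1 / 2 : ℝ) ^ (w x)) :
    (1 / 4 : ℝ) * (Fintype.card (V → Ω₀)) ≤
      ((Finset.univ.filter (fun ω : V → Ω₀ => ∃ x, ∀ y, y ≠ x →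
        fv κ g L d w y (ω y) + g ≤ fv κ g L d w x (ω x))).card : ℝ) := by
  classical
  set N0 : ℝ := (Fintype.card Ω₀ : ℝ) with hN0
  have hN0pos : 0 < N0 := by rw [hN0]; exact_mod_cast hpos
  set W : ℝ := (Fintype.card (V → Ω₀) : ℝ) with hW
  set E : V → Finset (V → Ω₀) := fun x => Finset.univ.filter (fun ω : V → Ω₀ => ∀ y, y ≠ x →
        fv κ g L d w y (ω y) + g ≤ fv κ g L d w x (ω x)) with hE
  set E' : V → Finset (V → Ω₀) := fun x => Finset.univ.filter (fun ω : V → Ω₀ =>
        1 ≤ fv κ g L d w x (ω x) ∧ ∀ y, y ≠ x → fv κ g L d w y (ω y) ≤ fv κ g L d w x (ω x))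
    with hE'
  set z : V → ℕ := fun x => if d x < g * (2 * κ + 14) then
        (Finset.univ.filter (fun u : Ω₀ => 2 * κ + 14 ≤ kx κ L w x u)).card else 0 with hz
  -- comparison of `E'` and `E`
  have hcomp : ∀ x, N0 * ((E' x).card : ℝ) ≤ 2 * (N0 * ((E x).card : ℝ)) + (z x : ℝ) * W := by
    intro x
    have hnat : Fintype.card Ω₀ * (E' x).card ≤
        2 * (Fintype.card Ω₀ * (E x).card) + z x * Fintype.card (V → Ω₀) := by
      have r1 := resample x (fun ω : V → Ω₀ =>
        1 ≤ fv κ g L d w x (ω x) ∧ ∀ y, y ≠ x → fv κ g L d w y (ω y) ≤ fv κ g L d w x (ω x))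
      have r2 := resample x (fun ω : V → Ω₀ => ∀ y, y ≠ x →
        fv κ g L d w y (ω y) + g ≤ fv κ g L d w x (ω x))
      have r1' : Fintype.card Ω₀ * (E' x).card = _ := r1
      have r2' : Fintype.card Ω₀ * (E x).card = _ := r2
      rw [r1', r2', Finset.mul_sum]
      have r3 : z x * Fintype.card (V → Ω₀) = ∑ _ω : V → Ω₀, z x := by
        rw [Finset.sum_const, Finset.card_univ, smul_eq_mul, mul_comm]
      rw [r3, ← Finset.sum_add_distrib]
      apply Finset.sum_le_sum
      intro ω _
      set Y := max 1 ((Finset.univ.erase x).sup (fun y => fv κ g L d w y (ω y))) with hY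
      have hY1 : 1 ≤ Y := le_max_left _ _
      have hYy : ∀ y, y ≠ x → fv κ g L d w y (ω y) ≤ Y := by
        intro y hy
        exact (Finset.le_sup (f := fun y => fv κ g L d w y (ω y))
          (Finset.mem_erase.2 ⟨hy, Finset.mem_univ y⟩)).trans (le_max_right _ _)
      have s1 : (Finset.univ.filter (fun u : Ω₀ =>
          1 ≤ fv κ g L d w x (Function.update ω x u x) ∧ ∀ y, y ≠ x →
            fv κ g L d w y (Function.update ω x u y) ≤
              fv κ g L d w x (Function.update ω x u x))).card ≤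
          (Finset.univ.filter (fun u : Ω₀ => Y ≤ fv κ g L d w x u)).card := by
        apply Finset.card_le_card
        intro u hu
        rw [Finset.mem_filter] at hu ⊢
        refine ⟨hu.1, ?_⟩
        obtain ⟨h1, h2⟩ := hu.2
        rw [Function.update_self] at h1 h2
        rw [hY]
        apply max_le h1
        apply Finset.sup_le
        intro y hy
        have hyx := (Finset.mem_erase.1 hy).1
        have := h2 y hyx
        rw [Function.update_of_ne hyx] at this
        exact this
      have s2 : (Finset.univ.filter (fun u : Ω₀ => Y + g ≤ fv κ g L d w x u)).card ≤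
          (Finset.univ.filter (fun u : Ω₀ => ∀ y, y ≠ x →
            fv κ g L d w y (Function.update ω x u y) + g ≤
              fv κ g L d w x (Function.update ω x u x))).card := by
        apply Finset.card_le_card
        intro u hu
        rw [Finset.mem_filter] at hu ⊢
        refine ⟨hu.1, ?_⟩
        intro y hy
        rw [Function.update_self, Function.update_of_ne hy]
        have h1 := hYy y hy
        have h2 := hu.2
        omega
      have s3 := step_card κ g m hg L d w hL x (hm x) hY1
      have s4 : z x = (if d x < g * (2 * κ + 14) then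
        (Finset.univ.filter (fun u : Ω₀ => 2 * κ + 14 ≤ kx κ L w x u)).card else 0) := rfl
      rw [← s4] at s3
      omega
    have hcast := (Nat.cast_le (α := ℝ)).2 hnat
    push_cast at hcast
    rw [hN0, hW]
    push_cast
    linarith
  -- `E` is disjoint
  have hsumE : ∑ x, ((E x).card : ℝ) ≤ ((Finset.univ.filter (fun ω : V → Ω₀ => ∃ x, ∀ y, y ≠ x →
        fv κ g L d w y (ω y) + g ≤ fv κ g L d w x (ω x))).card : ℝ) := by
    have hdis : ∀ x ∈ (Finset.univ : Finset V), ∀ y ∈ (Finset.univ : Finset V), x ≠ y →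
        Disjoint (E x) (E y) := by
      intro x _ y _ hxy
      rw [Finset.disjoint_left]
      intro ω h1 h2
      rw [hE] at h1 h2
      rw [Finset.mem_filter] at h1 h2
      have h3 := h1.2 y (fun h => hxy h.symm)
      have h4 := h2.2 x hxy
      omega
    have h5 : ((Finset.univ.biUnion E).card : ℝ) = ∑ x, ((E x).card : ℝ) := by
      rw [Finset.card_biUnion hdis]
      push_cast
      rfl
    rw [← h5]
    have h6 : (Finset.univ.biUnion E) ⊆ (Finset.univ.filter (fun ω : V → Ω₀ => ∃ x, ∀ y, y ≠ x →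
        fv κ g L d w y (ω y) + g ≤ fv κ g L d w x (ω x))) := by
      intro ω hω
      obtain ⟨x, _, hx⟩ := Finset.mem_biUnion.1 hω
      rw [hE, Finset.mem_filter] at hx
      exact Finset.mem_filter.2 ⟨Finset.mem_univ _, x, hx.2⟩
    exact_mod_cast Finset.card_le_card h6
  -- bound of the error terms
  have hzx : ∀ x, (z x : ℝ) ≤ if d x < g * (2 * κ + 14) then N0 / 16 * (1 / 2 : ℝ) ^ (w x)
      else 0 := by
    intro x
    have hzdef : z x = if d x < g * (2 * κ + 14) then
        (Finset.univ.filter (fun u : Ω₀ => 2 * κ + 14 ≤ kx κ L w x u)).card else 0 := rfl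
    rw [hzdef]
    by_cases hd : d x < g * (2 * κ + 14)
    · rw [if_pos hd, if_pos hd]
      have t1 := tail_card κ m L w hL x (hm x) (k := 2 * κ + 14) (by omega) le_rfl
      have e1 : 2 * κ + 14 + w x - (2 * κ + 10) = 4 + w x := by omega
      rw [e1] at t1
      have t2 : (2 : ℝ) ^ (4 + w x) *
          ((Finset.univ.filter (fun u : Ω₀ => 2 * κ + 14 ≤ kx κ L w x u)).card : ℝ) = N0 := by
        rw [hN0]; exact_mod_cast t1
      have h2 : (0 : ℝ) < 2 ^ (w x) := by positivity
      rw [← t2, pow_add, one_div, inv_pow]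
      field_simp
      norm_num
    · rw [if_neg hd, if_neg hd]
      simp
  have hsumz : ∑ x, (z x : ℝ) ≤ N0 / 8 := by
    calc ∑ x, (z x : ℝ) ≤ ∑ x, (if d x < g * (2 * κ + 14) then N0 / 16 * (1 / 2 : ℝ) ^ (w x)
          else 0) := Finset.sum_le_sum (fun x _ => hzx x)
      _ = N0 / 16 * ∑ x ∈ Finset.univ.filter (fun x => d x < g * (2 * κ + 14)),
            (1 / 2 : ℝ) ^ (w x) := by
          rw [← Finset.sum_filter, Finset.mul_sum]
      _ ≤ N0 / 16 * 2 := mul_le_mul_of_nonneg_left H1 (by positivity)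
      _ = N0 / 8 := by ring
  -- the union of `E'`
  have hunion : (4 / 5 : ℝ) * W ≤ ∑ x, ((E' x).card : ℝ) := by
    set B : Finset V := Finset.univ.filter (fun x => d x ≤ g * (κ + 7)) with hB
    set bad : Finset (V → Ω₀) := Fintype.piFinset (fun x => if x ∈ B then
      Finset.univ.filter (fun u : Ω₀ => ¬ (κ + 8 ≤ kx κ L w x u)) else Finset.univ) with hbad
    have hcover : (Finset.univ : Finset (V → Ω₀)) ⊆ bad ∪ Finset.univ.biUnion E' := by
      intro ω _
      rw [Finset.mem_union]
      by_cases h : ∃ x, 1 ≤ fv κ g L d w x (ω x)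
      · right
        obtain ⟨x₀, hx₀⟩ := h
        obtain ⟨x, _, hx⟩ := Finset.exists_max_image Finset.univ
          (fun x => fv κ g L d w x (ω x)) ⟨x₀, Finset.mem_univ x₀⟩
        rw [Finset.mem_biUnion]
        refine ⟨x, Finset.mem_univ x, ?_⟩
        rw [hE', Finset.mem_filter]
        exact ⟨Finset.mem_univ _, hx₀.trans (hx x₀ (Finset.mem_univ _)),
          fun y _ => hx y (Finset.mem_univ y)⟩
      · left
        push Not at h
        rw [hbad, Fintype.mem_piFinset]
        intro x
        by_cases hxB : x ∈ B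
        · rw [if_pos hxB, Finset.mem_filter]
          refine ⟨Finset.mem_univ _, ?_⟩
          intro hc
          have h1 := h x
          rw [hB, Finset.mem_filter] at hxB
          unfold fv at h1
          have h2 : g * (κ + 8) ≤ g * kx κ L w x (ω x) := Nat.mul_le_mul_left _ hc
          have h3 : g * (κ + 8) = g * (κ + 7) + g := by ring
          have h4 := hxB.2
          omega
        · rw [if_neg hxB]
          exact Finset.mem_univ _
    have hcardW : W ≤ (bad.card : ℝ) + ∑ x, ((E' x).card : ℝ) := by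
      have h1 := Finset.card_le_card hcover
      have h2 := Finset.card_union_le bad (Finset.univ.biUnion E')
      have h3 := Finset.card_biUnion_le (s := (Finset.univ : Finset V)) (t := E')
      rw [Finset.card_univ] at h1
      have h4 : Fintype.card (V → Ω₀) ≤ bad.card + ∑ x, (E' x).card := by omega
      rw [hW]
      exact_mod_cast h4
    have hbadcard : (bad.card : ℝ) ≤ W / 5 := by
      rw [hbad, Fintype.card_piFinset]
      push_cast
      have hfac : ∀ x, ((if x ∈ B then
          Finset.univ.filter (fun u : Ω₀ => ¬ (κ + 8 ≤ kx κ L w x u)) else Finset.univ).card : ℝ) ≤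
          N0 * Real.exp (if x ∈ B then -((2 : ℝ) ^ (κ + 2) * (1 / 2 : ℝ) ^ (w x)) else 0) := by
        intro x
        by_cases hxB : x ∈ B
        · rw [if_pos hxB, if_pos hxB]
          have t1 := tail_card κ m L w hL x (hm x) (k := κ + 8) (by omega) (by omega)
          have hsplit := Finset.card_filter_add_card_filter_not (s := (Finset.univ : Finset Ω₀))
            (fun u : Ω₀ => κ + 8 ≤ kx κ L w x u)
          rw [Finset.card_univ] at hsplit
          have hsplit' : ((Finset.univ.filter
              (fun u : Ω₀ => ¬ (κ + 8 ≤ kx κ L w x u))).card : ℝ) =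
              N0 - ((Finset.univ.filter (fun u : Ω₀ => κ + 8 ≤ kx κ L w x u)).card : ℝ) := by
            have : (((Finset.univ.filter (fun u : Ω₀ => κ + 8 ≤ kx κ L w x u)).card : ℝ) +
              ((Finset.univ.filter (fun u : Ω₀ => ¬ (κ + 8 ≤ kx κ L w x u))).card : ℝ)) = N0 := by
              rw [hN0]; exact_mod_cast hsplit
            linarith
          rw [hsplit']
          by_cases hw : κ + 2 ≤ w x
          · have e1 : κ + 8 + w x - (2 * κ + 10) = w x - (κ + 2) := by omega
            rw [e1] at t1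
            have t2 : (2 : ℝ) ^ (w x - (κ + 2)) *
                ((Finset.univ.filter (fun u : Ω₀ => κ + 8 ≤ kx κ L w x u)).card : ℝ) = N0 := by
              rw [hN0]; exact_mod_cast t1
            have h3 : (2 : ℝ) ^ (κ + 2) * (1 / 2 : ℝ) ^ (w x) = 1 / 2 ^ (w x - (κ + 2)) := by
              obtain ⟨r, hr⟩ : ∃ r, w x = κ + 2 + r := ⟨w x - (κ + 2), by omega⟩
              rw [hr, Nat.add_sub_cancel_left, one_div, inv_pow, pow_add 2 (κ + 2) r]
              have h4 : (0 : ℝ) < 2 ^ (κ + 2) := by positivity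
              field_simp
            have h5 : ((Finset.univ.filter (fun u : Ω₀ => κ + 8 ≤ kx κ L w x u)).card : ℝ) =
                N0 * (1 / 2 ^ (w x - (κ + 2))) := by
              have h4 : (0 : ℝ) < 2 ^ (w x - (κ + 2)) := by positivity
              field_simp
              linarith
            rw [h5, h3]
            have h6 := Real.add_one_le_exp (-(1 / (2 : ℝ) ^ (w x - (κ + 2))))
            nlinarith
          · have e1 : κ + 8 + w x - (2 * κ + 10) = 0 := by omega
            rw [e1] at t1
            have t2 : ((Finset.univ.filter (fun u : Ω₀ => κ + 8 ≤ kx κ L w x u)).card : ℝ) = N0 := by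
              rw [hN0]
              have : (Finset.univ.filter (fun u : Ω₀ => κ + 8 ≤ kx κ L w x u)).card =
                Fintype.card Ω₀ := by omega
              exact_mod_cast this
            rw [t2]
            have := Real.exp_pos (-((2 : ℝ) ^ (κ + 2) * (1 / 2 : ℝ) ^ (w x)))
            have h7 := mul_pos hN0pos this
            linarith
        · rw [if_neg hxB, if_neg hxB, Finset.card_univ, Real.exp_zero, mul_one]
      calc ∏ x, ((if x ∈ B then
          Finset.univ.filter (fun u : Ω₀ => ¬ (κ + 8 ≤ kx κ L w x u)) else Finset.univ).card : ℝ)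
          ≤ ∏ x, (N0 * Real.exp (if x ∈ B then
              -((2 : ℝ) ^ (κ + 2) * (1 / 2 : ℝ) ^ (w x)) else 0)) :=
            Finset.prod_le_prod (fun x _ => Nat.cast_nonneg _) (fun x _ => hfac x)
        _ = W * Real.exp (∑ x, (if x ∈ B then
              -((2 : ℝ) ^ (κ + 2) * (1 / 2 : ℝ) ^ (w x)) else 0)) := by
            rw [Finset.prod_mul_distrib, Real.exp_sum, Finset.prod_const, Finset.card_univ, hW,
              Fintype.card_fun]
            push_cast
            rfl
        _ ≤ W * Real.exp (-4) := by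
            have hWpos : 0 ≤ W := by rw [hW]; positivity
            apply mul_le_mul_of_nonneg_left _ hWpos
            apply Real.exp_le_exp.2
            rw [← Finset.sum_filter]
            have h1 : Finset.univ.filter (fun x => x ∈ B) = B := by
              ext x; simp
            rw [h1, Finset.sum_neg_distrib, ← Finset.mul_sum]
            have h2 : (2 : ℝ) ^ (κ + 2) * (1 / 2 : ℝ) ^ κ = 4 := by
              rw [pow_add, one_div, inv_pow]
              have h4 : (0 : ℝ) < 2 ^ κ := by positivity
              field_simp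
              norm_num
            have h3 : (2 : ℝ) ^ (κ + 2) * (1 / 2 : ℝ) ^ κ ≤
                (2 : ℝ) ^ (κ + 2) * ∑ x ∈ B, (1 / 2 : ℝ) ^ (w x) :=
              mul_le_mul_of_nonneg_left H2 (by positivity)
            linarith
        _ ≤ W / 5 := by
            have hWpos : 0 ≤ W := by rw [hW]; positivity
            have h1 : Real.exp (-4) ≤ 1 / 5 := by
              rw [Real.exp_neg]
              have h2 := Real.add_one_le_exp (4 : ℝ)
              have h3 : (5 : ℝ) ≤ Real.exp 4 := by linarith
              rw [one_div]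
              exact inv_anti₀ (by norm_num) h3
            calc W * Real.exp (-4) ≤ W * (1 / 5) := mul_le_mul_of_nonneg_left h1 hWpos
              _ = W / 5 := by ring
    linarith
  -- conclusion
  have hfin : N0 * ((4 / 5 : ℝ) * W) ≤ 2 * (N0 * ((Finset.univ.filter (fun ω : V → Ω₀ =>
        ∃ x, ∀ y, y ≠ x → fv κ g L d w y (ω y) + g ≤ fv κ g L d w x (ω x))).card : ℝ)) +
        N0 / 8 * W := by
    have hWpos : 0 ≤ W := by rw [hW]; positivity
    calc N0 * ((4 / 5 : ℝ) * W) ≤ N0 * ∑ x, ((E' x).card : ℝ) :=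
          mul_le_mul_of_nonneg_left hunion hN0pos.le
      _ = ∑ x, N0 * ((E' x).card : ℝ) := Finset.mul_sum _ _ _
      _ ≤ ∑ x, (2 * (N0 * ((E x).card : ℝ)) + (z x : ℝ) * W) :=
          Finset.sum_le_sum (fun x _ => hcomp x)
      _ = 2 * (N0 * ∑ x, ((E x).card : ℝ)) + (∑ x, (z x : ℝ)) * W := by
          rw [Finset.sum_add_distrib, ← Finset.mul_sum, ← Finset.mul_sum, ← Finset.sum_mul]
      _ ≤ _ := by
          apply add_le_add
          · apply mul_le_mul_of_nonneg_left _ (by norm_num)
            exact mul_le_mul_of_nonneg_left hsumE hN0pos.le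
          · exact mul_le_mul_of_nonneg_right hsumz hWpos
  have hWpos : 0 ≤ W := by rw [hW]; positivity
  set X : ℝ := ((Finset.univ.filter (fun ω : V → Ω₀ =>
        ∃ x, ∀ y, y ≠ x → fv κ g L d w y (ω y) + g ≤ fv κ g L d w x (ω x))).card : ℝ)
  have h1 : N0 * ((4 / 5 : ℝ) * W) ≤ N0 * (2 * X + W / 8) := by
    calc N0 * ((4 / 5 : ℝ) * W) ≤ 2 * (N0 * X) + N0 / 8 * W := hfin
      _ = N0 * (2 * X + W / 8) := by ring
  have h2 := le_of_mul_le_mul_left h1 hN0pos
  linarith

end

end Pool.Agent.Lib.MP_ba713f_lc.MC
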