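import Pool.Agent.Lib.MP_ba713f_lc.MC.Greedy

/-!
Locality: two instances which agree on the ball of radius `T` give the same color at the centre.
-/

namespace Pool.Agent.Lib.MP_ba713f_lc.MC

/-- `P'` agrees with `P` on the ball of radius `T` around `v₀`. -/
def Agree (P P' : Inst) (T v₀ : ℕ) : Prop :=
  (∀ a ∈ ball P.N (T - 1) v₀, P'.N a = P.N a) ∧ (∀ a ∈ ball P.N T v₀, P'.lev a = P.lev a)

variable {P P' : Inst} {T v₀ : ℕ}

theorem ball_agree (h : Agree P P' T v₀) : ∀ (t s a : ℕ), s + t ≤ T → a ∈ ball P.N s v₀ →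
    ball P'.N t a = ball P.N t a := by
  intro t
  induction t with
  | zero => intro s a _ _; rfl
  | succ t ih =>
    intro s a hs ha
    show ball P'.N t a ∪ (P'.N a).biUnion (ball P'.N t) = ball P.N t a ∪ (P.N a).biUnion (ball P.N t)
    rw [ih s a (by omega) ha, h.1 a (ball_mono P.N (by omega) v₀ ha)]
    congr 1
    apply Finset.biUnion_congr rfl
    intro b hb
    exact ih (s + 1) b (by omega) (ball_trans P.N ha (ball_one_of_nbr P.N hb))

theorem wt_agree (h : Agree P P' T v₀) {κ i s a : ℕ} (hs : s + 4 * rad κ i ≤ T)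
    (ha : a ∈ ball P.N s v₀) : wt P' κ i a = wt P κ i a := by
  unfold wt
  rw [ball_agree h _ s a hs ha]

theorem shift_agree (h : Agree P P' T v₀) {κ i q s a : ℕ} (hs : s + 4 * rad κ i ≤ T)
    (ha : a ∈ ball P.N s v₀) : shift P' κ i q a = shift P κ i q a := by
  unfold shift
  rw [wt_agree h hs ha, h.2 a (ball_mono P.N (by omega) v₀ ha)]

theorem ff_agree (h : Agree P P' T v₀) {κ i q s a b : ℕ} (hs : s + 6 * rad κ i ≤ T)
    (ha : a ∈ ball P.N s v₀) : ff P' κ i q b a = ff P κ i q b a := by
  unfold ff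
  by_cases hb : b ∈ ball P.N (2 * rad κ i) a
  · have hb' : b ∈ ball P.N (s + 2 * rad κ i) v₀ := ball_trans P.N ha hb
    rw [shift_agree h (by omega) hb']
    congr 1
    apply Finset.filter_congr
    intro t ht
    rw [Finset.mem_range] at ht
    have := shift_le P κ i q b
    rw [ball_agree h t s a (by omega) ha]
  · have h1 : (Finset.range (shift P κ i q b)).filter (fun t => b ∈ ball P.N t a) = ∅ := by
      apply Finset.filter_eq_empty_iff.2
      intro t ht hbt
      rw [Finset.mem_range] at ht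
      have := shift_le P κ i q b
      exact hb (ball_mono P.N (by omega) a hbt)
    have h2 : (Finset.range (shift P' κ i q b)).filter (fun t => b ∈ ball P'.N t a) = ∅ := by
      apply Finset.filter_eq_empty_iff.2
      intro t ht hbt
      rw [Finset.mem_range] at ht
      have := shift_le P' κ i q b
      rw [ball_agree h t s a (by omega) ha] at hbt
      exact hb (ball_mono P.N (by omega) a hbt)
    rw [h1, h2]

theorem FF_agree (h : Agree P P' T v₀) {κ i q s a b : ℕ} (hs : s + 6 * rad κ i ≤ T)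
    (ha : a ∈ ball P.N s v₀) : FF P' κ i q b a = FF P κ i q b a := by
  unfold FF
  rw [ff_agree h hs ha, ball_agree h _ s a (by omega) ha]
  congr 1
  apply Finset.sup_congr rfl
  intro c _
  exact ff_agree h hs ha

theorem Sep_agree (h : Agree P P' T v₀) {κ i j s a θ : ℕ} (hs : s + 6 * rad κ i ≤ T)
    (ha : a ∈ ball P.N s v₀) : Sep P' κ i j a θ ↔ Sep P κ i j a θ := by
  unfold Sep
  have h1 : ∀ q b, FF P' κ i q b a = FF P κ i q b a := fun q b => FF_agree h hs ha
  simp only [h1]

theorem thr_agree (h : Agree P P' T v₀) {κ i j s a : ℕ} (hs : s + 6 * rad κ i ≤ T)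
    (ha : a ∈ ball P.N s v₀) : thr P' κ i j a = thr P κ i j a := by
  unfold thr
  congr 1
  ext θ
  exact Sep_agree h hs ha

theorem lab_agree (h : Agree P P' T v₀) {κ i j s a : ℕ} (hs : s + 6 * rad κ i ≤ T)
    (ha : a ∈ ball P.N s v₀) : lab P' κ i j a = lab P κ i j a := by
  unfold lab
  rw [thr_agree h hs ha, ball_agree h _ s a (by omega) ha]
  apply Finset.filter_congr
  intro p _
  rw [FF_agree h hs ha]

theorem rad_le {κ i I : ℕ} (h : i < I) : rad κ i ≤ 5 ^ I * (κ + 7) := by
  unfold rad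
  exact Nat.mul_le_mul_right _ (Nat.pow_le_pow_right (by norm_num) h)

theorem stages_agree (h : Agree P P' T v₀) {κ I Q s a : ℕ} (hs : s + 6 * (5 ^ I * (κ + 7)) ≤ T)
    (ha : a ∈ ball P.N s v₀) : stages P' κ I Q a = stages P κ I Q a := by
  unfold stages
  ext x
  simp only [Set.mem_setOf_eq]
  constructor
  · rintro ⟨h1, h2, θ, h3⟩
    refine ⟨h1, h2, θ, ?_⟩
    have hI : x / Q < I := by
      rw [Nat.div_lt_iff_lt_mul]
      · exact h1
      · rcases Nat.eq_zero_or_pos Q with h | h
        · subst h; simp at h1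
        · exact h
    have := rad_le (κ := κ) hI
    exact (Sep_agree h (by omega) ha).1 h3
  · rintro ⟨h1, h2, θ, h3⟩
    refine ⟨h1, h2, θ, ?_⟩
    have hI : x / Q < I := by
      rw [Nat.div_lt_iff_lt_mul]
      · exact h1
      · rcases Nat.eq_zero_or_pos Q with h | h
        · subst h; simp at h1
        · exact h
    have := rad_le (κ := κ) hI
    exact (Sep_agree h (by omega) ha).2 h3

theorem key_agree (h : Agree P P' T v₀) {κ I Q s a : ℕ} (hI : 1 ≤ I)
    (hs : s + 6 * (5 ^ I * (κ + 7)) ≤ T) (ha : a ∈ ball P.N s v₀) :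
    key P' κ I Q a = key P κ I Q a := by
  have h1 : stage P' κ I Q a = stage P κ I Q a := by
    unfold stage
    rw [stages_agree h hs ha]
  have h2 : stage P κ I Q a / Q < I := by
    rcases Set.eq_empty_or_nonempty (stages P κ I Q a) with he | hne
    · have : stage P κ I Q a = 0 := by
        unfold stage
        rw [he]
        exact Nat.sInf_empty
      rw [this, Nat.zero_div]
      exact hI
    · have h3 : stage P κ I Q a < I * Q := (Nat.sInf_mem hne).1
      rw [Nat.div_lt_iff_lt_mul]
      · exact h3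
      · rcases Nat.eq_zero_or_pos Q with h | h
        · subst h; simp at h3
        · exact h
  have h3 : slab P' κ I Q a = slab P κ I Q a := by
    unfold slab
    rw [h1]
    have := rad_le (κ := κ) h2
    exact lab_agree h (by omega) ha
  unfold key
  rw [h1, h3]

/-- **Locality of the color.** -/
theorem color_agree (hN : ∀ a b, b ∈ P.N a → a ∈ P.N b) {κ I Q : ℕ} (hI : 1 ≤ I)
    (X : ℕ → Prop) (hX : ∀ a, X a → ∀ b ∈ P.N a, X b)
    (hst : ∀ a, X a → (stages P κ I Q a).Nonempty) (hv : X v₀)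
    (hT : I * cst κ Q + 6 * (5 ^ I * (κ + 7)) + 2 ≤ T) (h : Agree P P' T v₀) :
    greedy P'.N (key P' κ I Q) v₀ = greedy P.N (key P κ I Q) v₀ := by
  apply greedy_local
  intro w hw
  have hw' : w ∈ ball P.N (I * cst κ Q) v₀ := cone_bound P hN X hX hst hv hw
  refine ⟨h.1 w (ball_mono P.N (by omega) v₀ hw'), ?_, ?_⟩
  · exact key_agree h hI (s := I * cst κ Q) (by omega) hw'
  · intro b hb
    have hb' : b ∈ ball P.N (I * cst κ Q + 1) v₀ :=
      ball_trans P.N hw' (ball_one_of_nbr P.N hb)
    exact key_agree h hI (s := I * cst κ Q + 1) (by omega) hb'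

end Pool.Agent.Lib.MP_ba713f_lc.MC
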