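import Mathlib

/-!
The LOCAL model of distributed computing and minimal colorings (MP_ba713f_lc).
-/

namespace Pool.Agent.Lib.MP_ba713f_lc.MC

/-- An algorithm in the LOCAL model.  Every vertex starts from its identifier and its private random
input, in every round it sends one message (of unbounded size) to all its neighbours, receives the
multiset of the messages of its neighbours, and updates its state; at the end it outputs a number. -/
structure LocalAlgorithm (Ω : Type) where
  /-- the internal states -/
  State : Type
  /-- the messages -/
  Msg : Type
  /-- initial state, from the own identifier and the own random input -/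
  init : ℕ → Ω → State
  /-- the message sent to all neighbours -/
  send : State → Msg
  /-- the new state, from the old state and the messages received -/
  receive : State → Multiset Msg → State
  /-- the output -/
  output : State → ℕ

open Classical in
/-- The set of neighbours of a vertex. -/
noncomputable def nbr {V : Type} [Fintype V] (G : SimpleGraph V) (v : V) : Finset V :=
  Finset.univ.filter (fun u => G.Adj v u)

/-- The state of vertex `v` after `t` synchronous rounds. -/
noncomputable def LocalAlgorithm.state {Ω : Type} (A : LocalAlgorithm Ω) {V : Type} [Fintype V]
    (G : SimpleGraph V) (id : V → ℕ) (ω : V → Ω) : ℕ → V → A.State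
  | 0, v => A.init (id v) (ω v)
  | t + 1, v => A.receive (LocalAlgorithm.state A G id ω t v)
      ((nbr G v).val.map fun u => A.send (LocalAlgorithm.state A G id ω t u))

/-- Minimal colorings with colors `1, 2, 3, ...`: proper, and every vertex of color `i` has for every
`j < i` a neighbour of color `j`. -/
def IsMinimalColoring {V : Type} (G : SimpleGraph V) (φ : V → ℕ) : Prop :=
  (∀ v, 1 ≤ φ v) ∧ (∀ u v, G.Adj u v → φ u ≠ φ v) ∧
    ∀ v j, 1 ≤ j → j < φ v → ∃ u, G.Adj v u ∧ φ u = j

end Pool.Agent.Lib.MP_ba713f_lc.MC
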