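import Pool.Agent.Lib.MP_ba713f_lc.MC.Base

/-!
Pigeonhole for the thresholds, nested labels, and the distance bound for vertices with a common
label.
-/

namespace Pool.Agent.Lib.MP_ba713f_lc.MC

/-- If `v` is deep in one cluster of the block then `v` has a good threshold. -/
theorem exists_sep (P : Inst) {κ i j v q₀ a₀ : ℕ}
    (hq₀ : q₀ ∈ Finset.Ico (j * 5 ^ i) ((j + 1) * 5 ^ i))
    (h : 5 ^ (i + 1) ≤ FF P κ i q₀ a₀ v) : ∃ θ, Sep P κ i j v θ := by
  classical
  by_contra hno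
  push Not at hno
  have hpos : 1 ≤ 5 ^ i := Nat.one_le_pow _ _ (by norm_num)
  have hbig : 4 * 5 ^ i + 1 ≤ FF P κ i q₀ a₀ v := by
    have : 5 ^ (i + 1) = 5 * 5 ^ i := by ring
    omega
  -- every interval contains a value
  have hkey : ∀ k, k < 5 ^ i → ∃ q ∈ Finset.Ico (j * 5 ^ i) ((j + 1) * 5 ^ i), ∃ a,
      1 + 4 * k ≤ FF P κ i q a v ∧ FF P κ i q a v < 1 + 4 * k + 4 := by
    intro k hk
    by_contra hc
    push Not at hc
    apply hno (1 + 4 * k)
    refine ⟨by omega, ⟨q₀, hq₀, a₀, by omega⟩, ?_⟩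
    intro q hq a
    by_cases h1 : 1 + 4 * k ≤ FF P κ i q a v
    · right
      exact hc q hq a h1
    · left
      omega
  choose! g hg a ha using hkey
  -- the map from `range (5 ^ i + 1)` to the block
  let F : ℕ → ℕ := fun k => if k < 5 ^ i then g k else q₀
  let A : ℕ → ℕ := fun k => if k < 5 ^ i then a k else a₀
  have hF : ∀ k ∈ Finset.range (5 ^ i + 1), F k ∈ Finset.Ico (j * 5 ^ i) ((j + 1) * 5 ^ i) := by
    intro k _
    by_cases hk : k < 5 ^ i
    · simp only [F, hk, if_true]; exact hg k hk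
    · simp only [F, hk, if_false]; exact hq₀
  have hlow : ∀ k ∈ Finset.range (5 ^ i + 1), 1 + 4 * k ≤ FF P κ i (F k) (A k) v := by
    intro k hk
    rw [Finset.mem_range] at hk
    by_cases hk' : k < 5 ^ i
    · simp only [F, A, hk', if_true]; exact (ha k hk').1
    · simp only [F, A, hk', if_false]; omega
  have hup : ∀ k, k < 5 ^ i → FF P κ i (F k) (A k) v < 1 + 4 * k + 4 := by
    intro k hk'
    simp only [F, A, hk', if_true]; exact (ha k hk').2
  have hinj : Set.InjOn F (Finset.range (5 ^ i + 1)) := by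
    have haux : ∀ k l, k ∈ Finset.range (5 ^ i + 1) → l ∈ Finset.range (5 ^ i + 1) → F k = F l →
        ¬ k < l := by
      intro k l hk hl hkl hlt
      have hA : A k = A l := by
        apply FF_unique P (κ := κ) (i := i) (q := F k) (v := v)
        · have := hlow k hk; omega
        · have := hlow l hl; rw [hkl]; omega
      have h1 := hlow l hl
      rw [Finset.mem_range] at hl
      have h2 := hup k (by omega)
      rw [hA, hkl] at h2
      omega
    intro k hk l hl hkl
    rcases Nat.lt_trichotomy k l with h1 | h1 | h1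
    · exact absurd h1 (haux k l hk hl hkl)
    · exact h1
    · exact absurd h1 (haux l k hl hk hkl.symm)
  have hcard := Finset.card_le_card_of_injOn F hF hinj
  rw [Finset.card_range, Nat.card_Ico] at hcard
  have : (j + 1) * 5 ^ i - j * 5 ^ i = 5 ^ i := by
    rw [Nat.add_mul]; omega
  omega

/-- Labels of adjacent vertices in one phase are comparable. -/
theorem lab_nested (P : Inst) (hN : ∀ a b, b ∈ P.N a → a ∈ P.N b) {κ i j u v : ℕ}
    (huv : u ∈ P.N v) (hu : ∃ θ, Sep P κ i j u θ) (hv : ∃ θ, Sep P κ i j v θ) :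
    lab P κ i j u ⊆ lab P κ i j v ∨ lab P κ i j v ⊆ lab P κ i j u := by
  classical
  by_contra hc
  rw [not_or, Finset.not_subset, Finset.not_subset] at hc
  obtain ⟨⟨p, hpu, hpv⟩, ⟨p', hp'v, hp'u⟩⟩ := hc
  have su : Sep P κ i j u (thr P κ i j u) := Nat.sInf_mem hu
  have sv : Sep P κ i j v (thr P κ i j v) := Nat.sInf_mem hv
  rw [mem_lab P hu] at hpu hp'u
  rw [mem_lab P hv] at hpv hp'v
  have h1 : thr P κ i j u + 4 ≤ FF P κ i p.1 p.2 u := by
    rcases su.2.2 p.1 hpu.1 p.2 with h | h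
    · omega
    · exact h
  have h2 : thr P κ i j v + 4 ≤ FF P κ i p'.1 p'.2 v := by
    rcases sv.2.2 p'.1 hp'v.1 p'.2 with h | h
    · omega
    · exact h
  have h3 : FF P κ i p.1 p.2 v < thr P κ i j v := by
    by_contra h
    exact hpv ⟨hpu.1, by omega⟩
  have h4 : FF P κ i p'.1 p'.2 u < thr P κ i j u := by
    by_contra h
    exact hp'u ⟨hp'v.1, by omega⟩
  have h5 := FF_lip P hN κ i p.1 p.2 huv
  have h6 := FF_lip P hN κ i p'.1 p'.2 (hN v u huv)
  omega

theorem lab_nonempty (P : Inst) {κ i j v : ℕ} (hv : ∃ θ, Sep P κ i j v θ) :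
    (lab P κ i j v).Nonempty := by
  have sv : Sep P κ i j v (thr P κ i j v) := Nat.sInf_mem hv
  obtain ⟨q, hq, a, ha⟩ := sv.2.1
  exact ⟨(q, a), (mem_lab P hv (q, a)).2 ⟨hq, by show _ ≤ FF P κ i q a v; omega⟩⟩

/-- Vertices with a common label are close. -/
theorem dist_of_lab_sub (P : Inst) (hN : ∀ a b, b ∈ P.N a → a ∈ P.N b) {κ i j u v : ℕ}
    (hu : ∃ θ, Sep P κ i j u θ) (hv : ∃ θ, Sep P κ i j v θ)
    (h : lab P κ i j u ⊆ lab P κ i j v) : u ∈ ball P.N (4 * rad κ i) v := by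
  obtain ⟨p, hp⟩ := lab_nonempty P hu
  have hp' := h hp
  have su : Sep P κ i j u (thr P κ i j u) := Nat.sInf_mem hu
  have sv : Sep P κ i j v (thr P κ i j v) := Nat.sInf_mem hv
  rw [mem_lab P hu] at hp
  rw [mem_lab P hv] at hp'
  have h1 : p.2 ∈ ball P.N (2 * rad κ i) u := mem_ball_of_FF_pos P (su.1.trans hp.2)
  have h2 : p.2 ∈ ball P.N (2 * rad κ i) v := mem_ball_of_FF_pos P (sv.1.trans hp'.2)
  have h3 := ball_trans P.N h2 (ball_symm P.N hN h1)
  exact ball_mono P.N (by omega) v h3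

end Pool.Agent.Lib.MP_ba713f_lc.MC
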