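import Pool.Agent.Lib.MP_ba713f_lc.MC.Cone

/-!
The choice of the parameters.
-/

namespace Pool.Agent.Lib.MP_ba713f_lc.MC

/-- number of scales -/
def pI (n : ℕ) : ℕ := Nat.log 25 (Nat.log 2 n) + 1

/-- growth exponent -/
def pκ (n : ℕ) : ℕ := 2 * Nat.log 2 n / pI n

/-- number of clusterings per scale -/
def pQ (c n : ℕ) : ℕ := (6 * (c + 1) * (Nat.log 2 n + 1) / (pI n * 5 ^ pI n) + 1) * 5 ^ pI n

/-- number of rounds -/
def pT (c n : ℕ) : ℕ := pI n * cst (pκ n) (pQ c n) + 6 * (5 ^ pI n * (pκ n + 7)) + 2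

theorem log_pos {n : ℕ} (hn : 2 ≤ n) : 1 ≤ Nat.log 2 n := Nat.log_pos (by norm_num) hn

theorem succ_le_five_pow (k : ℕ) : k + 1 ≤ 5 ^ k := by
  induction k with
  | zero => simp
  | succ k ih =>
    rw [pow_succ]
    omega

theorem pow25_le {n : ℕ} (hn : 2 ≤ n) : 25 ^ (pI n - 1) ≤ Nat.log 2 n := by
  unfold pI
  rw [Nat.add_sub_cancel]
  exact Nat.pow_log_le_self 25 (by have := log_pos hn; omega)

theorem lt_pow25 (n : ℕ) : Nat.log 2 n < 25 ^ pI n := Nat.lt_pow_succ_log_self (by norm_num) _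

theorem pow5_le {n : ℕ} (hn : 2 ≤ n) : pI n * 5 ^ pI n ≤ 5 * Nat.log 2 n := by
  have h1 := pow25_le hn
  obtain ⟨k, hk⟩ : ∃ k, pI n = k + 1 := ⟨pI n - 1, by unfold pI; omega⟩
  rw [hk, Nat.add_sub_cancel] at h1
  rw [hk]
  have h2 := succ_le_five_pow k
  calc (k + 1) * 5 ^ (k + 1) ≤ 5 ^ k * 5 ^ (k + 1) := Nat.mul_le_mul_right _ h2
    _ = 5 * 25 ^ k := by
        rw [pow_succ, show (25 : ℕ) = 5 * 5 by norm_num, Nat.mul_pow]; ring
    _ ≤ 5 * Nat.log 2 n := Nat.mul_le_mul_left _ h1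

theorem pI_pos (n : ℕ) : 1 ≤ pI n := by unfold pI; omega

theorem pI_le {n : ℕ} (hn : 2 ≤ n) : pI n ≤ Nat.log 2 n := by
  have h1 := pow25_le hn
  obtain ⟨k, hk⟩ : ∃ k, pI n = k + 1 := ⟨pI n - 1, by unfold pI; omega⟩
  rw [hk, Nat.add_sub_cancel] at h1
  rw [hk]
  have h2 := succ_le_five_pow k
  have h3 : 5 ^ k ≤ 25 ^ k := Nat.pow_le_pow_left (by norm_num) k
  omega

theorem pQ_dvd (c n : ℕ) : 5 ^ pI n ∣ pQ c n := Dvd.intro_left _ rfl

theorem good_enough {c n g : ℕ} (hg : g ≤ pI n)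
    (h : (pκ n + 1) * (pI n - g) ≤ Nat.log 2 n) :
    3 * (c + 1) * (Nat.log 2 n + 1) ≤ pQ c n * g := by
  have hI := pI_pos n
  have h1 : 2 * Nat.log 2 n < (pκ n + 1) * pI n := by
    calc 2 * Nat.log 2 n < pI n * (2 * Nat.log 2 n / pI n + 1) := Nat.lt_mul_div_succ _ hI
      _ = (pκ n + 1) * pI n := by unfold pκ; ring
  have h2 : pI n < 2 * g := by
    by_contra hc
    have h3 : pI n ≤ 2 * (pI n - g) := by omega
    have h4 : (pκ n + 1) * pI n ≤ (pκ n + 1) * (2 * (pI n - g)) := Nat.mul_le_mul_left _ h3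
    have h5 : (pκ n + 1) * (2 * (pI n - g)) = 2 * ((pκ n + 1) * (pI n - g)) := by ring
    omega
  have h6 : 6 * (c + 1) * (Nat.log 2 n + 1) < pQ c n * pI n := by
    have h7 := Nat.lt_mul_div_succ (6 * (c + 1) * (Nat.log 2 n + 1))
      (b := pI n * 5 ^ pI n) (Nat.mul_pos hI (Nat.pow_pos (by norm_num)))
    calc 6 * (c + 1) * (Nat.log 2 n + 1) < (pI n * 5 ^ pI n) *
          (6 * (c + 1) * (Nat.log 2 n + 1) / (pI n * 5 ^ pI n) + 1) := h7
      _ = pQ c n * pI n := by unfold pQ; ring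
  have h8 : pQ c n * pI n ≤ pQ c n * (2 * g) := Nat.mul_le_mul_left _ h2.le
  have h9 : pQ c n * (2 * g) = 2 * (pQ c n * g) := by ring
  have h10 : 6 * (c + 1) * (Nat.log 2 n + 1) = 2 * (3 * (c + 1) * (Nat.log 2 n + 1)) := by ring
  omega

theorem prob_small {n : ℕ} (c : ℕ) (hn : 2 ≤ n) :
    (n : ℝ) * (3 / 4 : ℝ) ^ (3 * (c + 1) * (Nat.log 2 n + 1)) ≤ 1 / (n : ℝ) ^ c := by
  have hnpos : (0 : ℝ) < n := by exact_mod_cast (by omega : 0 < n)
  have h1 : (3 / 4 : ℝ) ^ (3 * (c + 1) * (Nat.log 2 n + 1)) ≤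
      (1 / 2 : ℝ) ^ ((c + 1) * (Nat.log 2 n + 1)) := by
    rw [show 3 * (c + 1) * (Nat.log 2 n + 1) = 3 * ((c + 1) * (Nat.log 2 n + 1)) by ring, pow_mul]
    exact pow_le_pow_left₀ (by norm_num) (by norm_num) _
  have h2 : n < 2 ^ (Nat.log 2 n + 1) := Nat.lt_pow_succ_log_self (by norm_num) n
  have h3 : (n : ℝ) ≤ 2 ^ (Nat.log 2 n + 1) := by exact_mod_cast h2.le
  have h4 : (n : ℝ) ^ (c + 1) ≤ 2 ^ ((c + 1) * (Nat.log 2 n + 1)) := by
    calc (n : ℝ) ^ (c + 1) ≤ (2 ^ (Nat.log 2 n + 1)) ^ (c + 1) :=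
          pow_le_pow_left₀ hnpos.le h3 _
      _ = 2 ^ ((c + 1) * (Nat.log 2 n + 1)) := by rw [← pow_mul, Nat.mul_comm]
  have h5 : (1 / 2 : ℝ) ^ ((c + 1) * (Nat.log 2 n + 1)) ≤ 1 / (n : ℝ) ^ (c + 1) := by
    rw [one_div, inv_pow, one_div]
    exact inv_anti₀ (by positivity) h4
  calc (n : ℝ) * (3 / 4 : ℝ) ^ (3 * (c + 1) * (Nat.log 2 n + 1))
      ≤ (n : ℝ) * (1 / (n : ℝ) ^ (c + 1)) :=
        mul_le_mul_of_nonneg_left (h1.trans h5) hnpos.le
    _ = 1 / (n : ℝ) ^ c := by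
        rw [pow_succ]
        field_simp

theorem pT_bound (c : ℕ) {n : ℕ} (hn : 2 ≤ n) :
    pT c n * pI n ≤ (181 * (12 * c + 17) + 272) * Nat.log 2 n ^ 2 := by
  set l := Nat.log 2 n with hl
  have hl1 : 1 ≤ l := log_pos hn
  have hI1 := pI_pos n
  have hIl : pI n ≤ l := pI_le hn
  have h5 : pI n * 5 ^ pI n ≤ 5 * l := pow5_le hn
  have hκ : pκ n * pI n ≤ 2 * l := Nat.div_mul_le_self _ _
  have hQ : pQ c n * pI n ≤ (12 * c + 17) * l := by
    have h1 : 6 * (c + 1) * (l + 1) / (pI n * 5 ^ pI n) * (pI n * 5 ^ pI n) ≤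
        6 * (c + 1) * (l + 1) := Nat.div_mul_le_self _ _
    calc pQ c n * pI n = 6 * (c + 1) * (l + 1) / (pI n * 5 ^ pI n) * (pI n * 5 ^ pI n) +
          pI n * 5 ^ pI n := by unfold pQ; ring
      _ ≤ 6 * (c + 1) * (l + 1) + 5 * l := Nat.add_le_add h1 h5
      _ ≤ 6 * (c + 1) * (2 * l) + 5 * l := by
          apply Nat.add_le_add_right
          apply Nat.mul_le_mul_left
          omega
      _ = (12 * c + 17) * l := by ring
  have h6 : (20 * (pκ n + 7) + 1) * pI n ≤ 181 * l := by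
    calc (20 * (pκ n + 7) + 1) * pI n = 20 * (pκ n * pI n) + 141 * pI n := by ring
      _ ≤ 20 * (2 * l) + 141 * l := Nat.add_le_add (Nat.mul_le_mul_left _ hκ)
          (Nat.mul_le_mul_left _ hIl)
      _ = 181 * l := by ring
  have h7 : 5 ^ pI n ≤ 5 * l := by
    calc 5 ^ pI n = 1 * 5 ^ pI n := (Nat.one_mul _).symm
      _ ≤ pI n * 5 ^ pI n := Nat.mul_le_mul_right _ hI1
      _ ≤ 5 * l := h5
  have h8 : (pκ n + 7) * pI n ≤ 9 * l := by
    calc (pκ n + 7) * pI n = pκ n * pI n + 7 * pI n := by ring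
      _ ≤ 2 * l + 7 * l := Nat.add_le_add hκ (Nat.mul_le_mul_left _ hIl)
      _ = 9 * l := by ring
  have h9 : l ≤ l ^ 2 := by nlinarith
  calc pT c n * pI n = (pQ c n * pI n) * ((20 * (pκ n + 7) + 1) * pI n) +
        6 * (5 ^ pI n * ((pκ n + 7) * pI n)) + 2 * pI n := by unfold pT cst; ring
    _ ≤ ((12 * c + 17) * l) * (181 * l) + 6 * ((5 * l) * (9 * l)) + 2 * l ^ 2 := by
        apply Nat.add_le_add
        · apply Nat.add_le_add
          · exact Nat.mul_le_mul hQ h6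
          · exact Nat.mul_le_mul_left _ (Nat.mul_le_mul h7 h8)
        · exact Nat.mul_le_mul_left _ (hIl.trans h9)
    _ = (181 * (12 * c + 17) + 272) * l ^ 2 := by ring

theorem loglog_le {n : ℕ} (hn : 3 ≤ n) :
    Real.log (Real.log n) ≤ (pI n : ℝ) * Real.log 50 := by
  have hl1 : 1 ≤ Nat.log 2 n := log_pos (by omega)
  have h1 : (n : ℝ) ≤ 2 ^ (Nat.log 2 n + 1) := by
    exact_mod_cast (Nat.lt_pow_succ_log_self (b := 2) (by norm_num) n).le
  have hnpos : (0 : ℝ) < n := by exact_mod_cast (by omega : 0 < n)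
  have h2 : Real.log n ≤ (Nat.log 2 n + 1 : ℕ) * Real.log 2 := by
    rw [← Real.log_pow]
    exact Real.log_le_log hnpos h1
  have h3 : Real.log 2 ≤ 1 := by
    have := Real.log_two_lt_d9
    linarith
  have h4 : ((Nat.log 2 n + 1 : ℕ) : ℝ) ≤ 50 ^ pI n := by
    have h5 : Nat.log 2 n + 1 ≤ 50 ^ pI n := by
      have h6 := lt_pow25 n
      have h7 : 2 * 25 ^ pI n ≤ 50 ^ pI n := by
        rw [show (50 : ℕ) = 2 * 25 by norm_num, Nat.mul_pow]
        apply Nat.mul_le_mul_right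
        calc 2 = 2 ^ 1 := rfl
          _ ≤ 2 ^ pI n := Nat.pow_le_pow_right (by norm_num) (pI_pos n)
      omega
    exact_mod_cast h5
  have h8 : Real.log n ≤ 50 ^ pI n := by
    have h9 : ((Nat.log 2 n + 1 : ℕ) : ℝ) * Real.log 2 ≤ ((Nat.log 2 n + 1 : ℕ) : ℝ) * 1 :=
      mul_le_mul_of_nonneg_left h3 (Nat.cast_nonneg _)
    linarith
  have h10 : 0 < Real.log n := Real.log_pos (by exact_mod_cast (by omega : 1 < n))
  calc Real.log (Real.log n) ≤ Real.log (50 ^ pI n) := Real.log_le_log h10 h8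
    _ = (pI n : ℝ) * Real.log 50 := by rw [Real.log_pow]

theorem loglog_pos {n : ℕ} (hn : 3 ≤ n) : 0 < Real.log (Real.log n) := by
  apply Real.log_pos
  have h1 : Real.exp 1 < 3 := by
    have := Real.exp_one_lt_d9
    linarith
  have h2 : (3 : ℝ) ≤ n := by exact_mod_cast hn
  rw [Real.lt_log_iff_exp_lt (by linarith)]
  linarith

/-- The constant. -/
noncomputable def pC (c : ℕ) : ℝ :=
  (181 * (12 * c + 17) + 272) * Real.log 50 / Real.log 2 ^ 2

theorem pT_real (c : ℕ) {n : ℕ} (hn : 3 ≤ n) :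
    (pT c n : ℝ) ≤ pC c * Real.log n ^ 2 / Real.log (Real.log n) := by
  have h1 := pT_bound c (n := n) (by omega)
  have h2 : (pT c n : ℝ) * pI n ≤ (181 * (12 * c + 17) + 272) * (Nat.log 2 n : ℝ) ^ 2 := by
    exact_mod_cast h1
  have h3 := loglog_le hn
  have h4 := loglog_pos hn
  have h5 : (0 : ℝ) < Real.log 50 := Real.log_pos (by norm_num)
  have h6 : (0 : ℝ) < Real.log 2 := Real.log_pos (by norm_num)
  have h7 : (Nat.log 2 n : ℝ) * Real.log 2 ≤ Real.log n := by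
    rw [← Real.log_pow]
    apply Real.log_le_log (by positivity)
    exact_mod_cast Nat.pow_log_le_self 2 (by omega)
  have h8 : (Nat.log 2 n : ℝ) ^ 2 ≤ Real.log n ^ 2 / Real.log 2 ^ 2 := by
    rw [le_div_iff₀ (by positivity), ← mul_pow]
    exact pow_le_pow_left₀ (by positivity) h7 2
  rw [le_div_iff₀ h4]
  have h9 : (0 : ℝ) ≤ (181 * (12 * c + 17) + 272) := by positivity
  calc (pT c n : ℝ) * Real.log (Real.log n) ≤ (pT c n : ℝ) * ((pI n : ℝ) * Real.log 50) :=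
        mul_le_mul_of_nonneg_left h3 (Nat.cast_nonneg _)
    _ = ((pT c n : ℝ) * pI n) * Real.log 50 := by ring
    _ ≤ ((181 * (12 * c + 17) + 272) * (Nat.log 2 n : ℝ) ^ 2) * Real.log 50 :=
        mul_le_mul_of_nonneg_right h2 h5.le
    _ ≤ ((181 * (12 * c + 17) + 272) * (Real.log n ^ 2 / Real.log 2 ^ 2)) * Real.log 50 :=
        mul_le_mul_of_nonneg_right (mul_le_mul_of_nonneg_left h8 h9) h5.le
    _ = pC c * Real.log n ^ 2 := by unfold pC; ring

theorem pT_little_o (c : ℕ) :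
    Filter.Tendsto (fun n : ℕ => (pT c n : ℝ) / Real.log n ^ 2) Filter.atTop (nhds 0) := by
  have h1 : Filter.Tendsto (fun n : ℕ => Real.log (Real.log (n : ℝ))) Filter.atTop
      Filter.atTop :=
    Real.tendsto_log_atTop.comp (Real.tendsto_log_atTop.comp tendsto_natCast_atTop_atTop)
  have h2 : Filter.Tendsto (fun n : ℕ => pC c / Real.log (Real.log (n : ℝ))) Filter.atTop
      (nhds 0) := Filter.Tendsto.div_atTop tendsto_const_nhds h1
  apply squeeze_zero' _ _ h2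
  · filter_upwards with n
    positivity
  · filter_upwards [Filter.eventually_ge_atTop 3] with n hn
    have h3 := pT_real c hn
    have h4 := loglog_pos hn
    have h5 : 0 < Real.log n := Real.log_pos (by exact_mod_cast (by omega : 1 < n))
    rw [div_le_iff₀ (by positivity)]
    calc (pT c n : ℝ) ≤ pC c * Real.log n ^ 2 / Real.log (Real.log n) := h3
      _ = pC c / Real.log (Real.log n) * Real.log n ^ 2 := by ring

/-- Geometric levels from `m` random bits. -/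
theorem exists_level (m : ℕ) : ∃ L : (Fin m → Bool) → ℕ, ∀ k ≤ m,
    2 ^ k * (Finset.univ.filter (fun u : Fin m → Bool => k ≤ L u)).card =
      Fintype.card (Fin m → Bool) := by
  have hcard : Fintype.card (Fin m → Bool) = 2 ^ m := by simp
  let e : (Fin m → Bool) ≃ Fin (2 ^ m) := Fintype.equivFinOfCardEq hcard
  refine ⟨fun u => m - Nat.size (e u), ?_⟩
  intro k hk
  have h1 : (Finset.univ.filter (fun u : Fin m → Bool => k ≤ m - Nat.size (e u))).card =
      (Finset.univ.filter (fun j : Fin (2 ^ m) => (j : ℕ) < 2 ^ (m - k))).card := by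
    apply Finset.card_equiv e
    intro u
    simp only [Finset.mem_filter, Finset.mem_univ, true_and]
    rw [← Nat.size_le]
    have h2 : Nat.size (e u) ≤ m := Nat.size_le.2 (e u).2
    omega
  rw [h1, Fin.card_filter_val_lt, hcard]
  have h3 : 2 ^ (m - k) ≤ 2 ^ m := Nat.pow_le_pow_right (by norm_num) (by omega)
  rw [min_eq_right h3, ← pow_add]
  congr 1
  omega

end Pool.Agent.Lib.MP_ba713f_lc.MC
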