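import Pool.Agent.Lib.MP_ba713f_lc.MC.Scale

/-!
The probability that a vertex has no stage.
-/

namespace Pool.Agent.Lib.MP_ba713f_lc.MC

section

variable {V : Type} [Fintype V] [DecidableEq V] (G : SimpleGraph V) {id : V → ℕ}
variable {Ω₀ : Type} [Fintype Ω₀]

/-- The levels from the random inputs. -/
def levT {I Q : ℕ} (L : Ω₀ → ℕ) : (Fin I × Fin Q → Ω₀) → ℕ → ℕ → ℕ := fun w i q =>
  if h : i < I ∧ q < Q then L (w (⟨i, h.1⟩, ⟨q, h.2⟩)) else 0

open Classical in
/-- `v` is deep in a cluster of one clustering. -/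
noncomputable def Deep (id : V → ℕ) (κ i : ℕ) (L : Ω₀ → ℕ) (v : V) : Finset (V → Ω₀) :=
  Finset.univ.filter (fun ω : V → Ω₀ => ∃ x, ∀ y, y ≠ x →
    fv κ (5 ^ (i + 1)) L (dV G id κ i v) (wV G id κ i) y (ω y) + 5 ^ (i + 1) ≤
      fv κ (5 ^ (i + 1)) L (dV G id κ i v) (wV G id κ i) x (ω x))

theorem deep_card (hid : Function.Injective id) (κ i m : ℕ) (L : Ω₀ → ℕ) (v : V)
    (hL : ∀ k ≤ m, 2 ^ k * (Finset.univ.filter (fun u : Ω₀ => k ≤ L u)).card = Fintype.card Ω₀)
    (hpos : 0 < Fintype.card Ω₀) (hm : 2 * κ + 14 + Nat.log 2 (Fintype.card V) ≤ m)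
    (hg : Good (pushN G id) κ i (id v)) :
    (1 / 4 : ℝ) * (Fintype.card (V → Ω₀)) ≤ ((Deep G id κ i L v).card : ℝ) := by
  classical
  have h := ldd κ (5 ^ (i + 1)) m (Nat.one_le_pow _ _ (by norm_num)) L (dV G id κ i v)
    (wV G id κ i) hL hpos (by
      intro x
      have h1 : wV G id κ i x ≤ Nat.log 2 (Fintype.card V) :=
        Nat.log_mono_right (card_ball_le G hid _ x)
      omega) (H1_holds G hid κ i v) (H2_holds G hid κ i v hg)
  refine h.trans (le_of_eq ?_)
  unfold Deep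
  congr 1

omit [DecidableEq V] in
theorem ff_true (hid : Function.Injective id) {κ I Q i q : ℕ} (hi : i < I) (hq : q < Q)
    (L : Ω₀ → ℕ) (ω : V → (Fin I × Fin Q → Ω₀)) (v x : V) :
    ff (trueInst G id ω (levT L)) κ i q (id x) (id v) =
      fv κ (5 ^ (i + 1)) L (dV G id κ i v) (wV G id κ i) x (ω x (⟨i, hi⟩, ⟨q, hq⟩)) := by
  rw [ff_eq (trueInst G id ω (levT L)) (D := 2 * rad κ i + 1) (by omega)]
  unfold fv kx shift
  rw [trueInst_lev G ω hid]
  have h : levT L (ω x) i q = L (ω x (⟨i, hi⟩, ⟨q, hq⟩)) := by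
    unfold levT
    rw [dif_pos ⟨hi, hq⟩]
  rw [h]
  rfl

theorem deep_imp (hid : Function.Injective id) (hV : 2 ≤ Fintype.card V) {κ I Q i q : ℕ}
    (hi : i < I) (hq : q < Q)
    (L : Ω₀ → ℕ) (ω : V → (Fin I × Fin Q → Ω₀)) (v : V)
    (h : (fun x => ω x (⟨i, hi⟩, ⟨q, hq⟩)) ∈ Deep G id κ i L v) :
    ∃ a, 5 ^ (i + 1) ≤ FF (trueInst G id ω (levT L)) κ i q a (id v) := by
  classical
  unfold Deep at h
  rw [Finset.mem_filter] at h
  obtain ⟨x, hx⟩ := h.2
  refine ⟨id x, ?_⟩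
  have hx' : ∀ y, y ≠ x → ff (trueInst G id ω (levT L)) κ i q (id y) (id v) + 5 ^ (i + 1) ≤
      ff (trueInst G id ω (levT L)) κ i q (id x) (id v) := by
    intro y hy
    rw [ff_true G hid hi hq, ff_true G hid hi hq]
    exact hx y hy
  unfold FF
  obtain ⟨y, hy⟩ := Fintype.exists_ne_of_one_lt_card (by omega) x
  have h1 := hx' y hy
  have h2 : ((ball (trueInst G id ω (levT L)).N (2 * rad κ i) (id v)).erase (id x)).sup
      (fun b => ff (trueInst G id ω (levT L)) κ i q b (id v)) ≤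
      ff (trueInst G id ω (levT L)) κ i q (id x) (id v) - 5 ^ (i + 1) := by
    apply Finset.sup_le
    intro b hb
    rw [Finset.mem_erase] at hb
    obtain ⟨z, rfl⟩ := ball_range G hid _ v hb.2
    have h3 := hx' z (fun hz => hb.1 (by rw [hz]))
    show ff (trueInst G id ω (levT L)) κ i q (id z) (id v) ≤ _
    omega
  omega

theorem stages_nonempty (P : Inst) {κ I Q i q a v : ℕ} (hi : i < I) (hq : q < Q)
    (hQ : 5 ^ I ∣ Q) (h : 5 ^ (i + 1) ≤ FF P κ i q a v) : (stages P κ I Q v).Nonempty := by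
  have hpos : 0 < 5 ^ i := Nat.pow_pos (by norm_num)
  have hqi : q / 5 ^ i < Q / 5 ^ i := by
    have hd : 5 ^ i ∣ Q := (pow_dvd_pow 5 hi.le).trans hQ
    obtain ⟨c, hc⟩ := hd
    rw [hc, Nat.mul_div_cancel_left c hpos, Nat.div_lt_iff_lt_mul hpos]
    rw [hc] at hq
    linarith [Nat.mul_comm (5 ^ i) c]
  have hblock : q ∈ Finset.Ico (q / 5 ^ i * 5 ^ i) ((q / 5 ^ i + 1) * 5 ^ i) := by
    rw [Finset.mem_Ico]
    constructor
    · exact Nat.div_mul_le_self q _
    · have := Nat.lt_div_mul_add (a := q) hpos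
      rw [Nat.add_mul]
      omega
  obtain ⟨θ, hθ⟩ := exists_sep P hblock h
  have hj : q / 5 ^ i < Q := lt_of_lt_of_le hqi (Nat.div_le_self _ _)
  have hQpos : 0 < Q := by omega
  refine ⟨i * Q + q / 5 ^ i, ?_, ?_, θ, ?_⟩
  · calc i * Q + q / 5 ^ i < i * Q + Q := by omega
      _ = (i + 1) * Q := by ring
      _ ≤ I * Q := Nat.mul_le_mul_right _ hi
  · rw [Nat.mul_comm i Q, Nat.mul_add_mod, Nat.mod_eq_of_lt hj, Nat.mul_add_div hQpos,
      Nat.div_eq_of_lt hj, Nat.add_zero]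
    exact hqi
  · rw [Nat.mul_comm i Q, Nat.mul_add_mod, Nat.mod_eq_of_lt hj, Nat.mul_add_div hQpos,
      Nat.div_eq_of_lt hj, Nat.add_zero]
    exact hθ

open Classical in
theorem fail_card (hid : Function.Injective id) (hV : 2 ≤ Fintype.card V) (κ I Q m : ℕ)
    (hQ : 5 ^ I ∣ Q) (L : Ω₀ → ℕ) (v : V)
    (hL : ∀ k ≤ m, 2 ^ k * (Finset.univ.filter (fun u : Ω₀ => k ≤ L u)).card = Fintype.card Ω₀)
    (hpos : 0 < Fintype.card Ω₀) (hm : 2 * κ + 14 + Nat.log 2 (Fintype.card V) ≤ m) :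
    ((Finset.univ.filter (fun ω : V → (Fin I × Fin Q → Ω₀) =>
      ¬ (stages (trueInst G id ω (levT L)) κ I Q (id v)).Nonempty)).card : ℝ) ≤
    (3 / 4 : ℝ) ^ (Q * ((Finset.range I).filter (fun i => Good (pushN G id) κ i (id v))).card) *
      (Fintype.card (V → (Fin I × Fin Q → Ω₀)) : ℝ) := by
  set C : ℝ := (Fintype.card (V → Ω₀) : ℝ) with hC
  set S : Fin I × Fin Q → Finset (V → Ω₀) := fun p =>
    if Good (pushN G id) κ p.1 (id v) then (Deep G id κ p.1 L v)ᶜ else Finset.univ with hS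
  have hsub : (Finset.univ.filter (fun ω : V → (Fin I × Fin Q → Ω₀) =>
      ¬ (stages (trueInst G id ω (levT L)) κ I Q (id v)).Nonempty)).card ≤
      (Fintype.piFinset S).card := by
    apply Finset.card_le_card_of_injOn (fun ω => fun p x => ω x p)
    · intro ω hω
      rw [Finset.mem_coe, Finset.mem_filter] at hω
      rw [Finset.mem_coe, Fintype.mem_piFinset]
      intro p
      show (fun x => ω x p) ∈ S p
      rw [hS]
      show (fun x => ω x p) ∈ (if Good (pushN G id) κ p.1 (id v) then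
        (Deep G id κ p.1 L v)ᶜ else Finset.univ)
      by_cases hg : Good (pushN G id) κ p.1 (id v)
      · rw [if_pos hg, Finset.mem_compl]
        intro hd
        apply hω.2
        obtain ⟨a, ha⟩ := deep_imp G hid hV p.1.2 p.2.2 L ω v hd
        exact stages_nonempty _ p.1.2 p.2.2 hQ ha
      · rw [if_neg hg]
        exact Finset.mem_univ _
    · intro ω₁ _ ω₂ _ h
      funext x p
      exact congrFun (congrFun h p) x
  have hcardS : ∀ p, ((S p).card : ℝ) ≤
      C * (if Good (pushN G id) κ p.1 (id v) then (3 / 4 : ℝ) else 1) := by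
    intro p
    rw [hS]
    show (((if Good (pushN G id) κ p.1 (id v) then
        (Deep G id κ p.1 L v)ᶜ else Finset.univ) : Finset (V → Ω₀)).card : ℝ) ≤ _
    by_cases hg : Good (pushN G id) κ p.1 (id v)
    · rw [if_pos hg, if_pos hg]
      have h1 := deep_card G hid κ p.1 m L v hL hpos hm hg
      have h2 := Finset.card_add_card_compl (Deep G id κ p.1 L v)
      have h3 : ((Deep G id κ p.1 L v).card : ℝ) + ((Deep G id κ p.1 L v)ᶜ.card : ℝ) = C := by
        rw [hC]
        exact_mod_cast h2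
      linarith
    · rw [if_neg hg, if_neg hg, Finset.card_univ, mul_one]
  have hprod : ∏ p : Fin I × Fin Q, (if Good (pushN G id) κ p.1 (id v) then (3 / 4 : ℝ) else 1) =
      (3 / 4 : ℝ) ^
        (Q * ((Finset.range I).filter (fun i => Good (pushN G id) κ i (id v))).card) := by
    rw [Fintype.prod_prod_type]
    have h0 : ∀ x : Fin I, ∏ _y : Fin Q,
        (if Good (pushN G id) κ (x : ℕ) (id v) then (3 / 4 : ℝ) else 1) =
        (fun i : ℕ => (if Good (pushN G id) κ i (id v) then (3 / 4 : ℝ) else 1) ^ Q) x := by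
      intro x
      rw [Finset.prod_const, Finset.card_univ, Fintype.card_fin]
    rw [Finset.prod_congr rfl (fun x _ => h0 x), Fin.prod_univ_eq_prod_range
      (fun i => (if Good (pushN G id) κ i (id v) then (3 / 4 : ℝ) else 1) ^ Q) I]
    have h1 : ∀ i ∈ Finset.range I,
        (if Good (pushN G id) κ i (id v) then (3 / 4 : ℝ) else 1) ^ Q =
        (if Good (pushN G id) κ i (id v) then (3 / 4 : ℝ) ^ Q else 1) := by
      intro i _
      by_cases hg : Good (pushN G id) κ i (id v)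
      · rw [if_pos hg, if_pos hg]
      · rw [if_neg hg, if_neg hg, one_pow]
    rw [Finset.prod_congr rfl h1, ← Finset.prod_filter, Finset.prod_const, ← pow_mul]
  have htotal : (Fintype.card (V → (Fin I × Fin Q → Ω₀)) : ℝ) =
      C ^ (Fintype.card (Fin I × Fin Q)) := by
    rw [hC, Fintype.card_fun, Fintype.card_fun, Fintype.card_fun]
    push_cast
    rw [← pow_mul, ← pow_mul, Nat.mul_comm]
  calc ((Finset.univ.filter (fun ω : V → (Fin I × Fin Q → Ω₀) =>
      ¬ (stages (trueInst G id ω (levT L)) κ I Q (id v)).Nonempty)).card : ℝ)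
      ≤ ((Fintype.piFinset S).card : ℝ) := by exact_mod_cast hsub
    _ = ∏ p, ((S p).card : ℝ) := by
        rw [Fintype.card_piFinset]
        push_cast
        rfl
    _ ≤ ∏ p : Fin I × Fin Q,
          (C * (if Good (pushN G id) κ p.1 (id v) then (3 / 4 : ℝ) else 1)) :=
        Finset.prod_le_prod (fun p _ => Nat.cast_nonneg _) (fun p _ => hcardS p)
    _ = _ := by
        rw [Finset.prod_mul_distrib, hprod, Finset.prod_const, Finset.card_univ, htotal]
        ring

open Classical in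
/-- The union bound. -/
theorem union_bound (hid : Function.Injective id) (hV : 2 ≤ Fintype.card V) (κ I Q m s : ℕ)
    (hQ : 5 ^ I ∣ Q) (L : Ω₀ → ℕ)
    (hL : ∀ k ≤ m, 2 ^ k * (Finset.univ.filter (fun u : Ω₀ => k ≤ L u)).card = Fintype.card Ω₀)
    (hpos : 0 < Fintype.card Ω₀) (hm : 2 * κ + 14 + Nat.log 2 (Fintype.card V) ≤ m)
    (hs : ∀ v, s ≤ Q * ((Finset.range I).filter (fun i => Good (pushN G id) κ i (id v))).card) :
    (1 - (Fintype.card V : ℝ) * (3 / 4 : ℝ) ^ s) *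
      (Fintype.card (V → (Fin I × Fin Q → Ω₀)) : ℝ) ≤
    ((Finset.univ.filter (fun ω : V → (Fin I × Fin Q → Ω₀) =>
      ∀ v, (stages (trueInst G id ω (levT L)) κ I Q (id v)).Nonempty)).card : ℝ) := by
  set W : ℝ := (Fintype.card (V → (Fin I × Fin Q → Ω₀)) : ℝ) with hW
  set A := (Finset.univ.filter (fun ω : V → (Fin I × Fin Q → Ω₀) =>
      ∀ v, (stages (trueInst G id ω (levT L)) κ I Q (id v)).Nonempty)) with hA
  set B : V → Finset (V → (Fin I × Fin Q → Ω₀)) := fun v => Finset.univ.filter (fun ω =>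
      ¬ (stages (trueInst G id ω (levT L)) κ I Q (id v)).Nonempty) with hB
  have hcover : (Finset.univ : Finset (V → (Fin I × Fin Q → Ω₀))) ⊆
      A ∪ Finset.univ.biUnion B := by
    intro ω _
    rw [Finset.mem_union]
    by_cases h : ∀ v, (stages (trueInst G id ω (levT L)) κ I Q (id v)).Nonempty
    · exact Or.inl (Finset.mem_filter.2 ⟨Finset.mem_univ _, h⟩)
    · right
      rw [not_forall] at h
      obtain ⟨v, hv⟩ := h
      exact Finset.mem_biUnion.2 ⟨v, Finset.mem_univ v, Finset.mem_filter.2 ⟨Finset.mem_univ _, hv⟩⟩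
  have h1 := Finset.card_le_card hcover
  have h2 := Finset.card_union_le A (Finset.univ.biUnion B)
  have h3 := Finset.card_biUnion_le (s := (Finset.univ : Finset V)) (t := B)
  rw [Finset.card_univ] at h1
  have h4 : Fintype.card (V → (Fin I × Fin Q → Ω₀)) ≤ A.card + ∑ v, (B v).card := by omega
  have h5 : W ≤ (A.card : ℝ) + ∑ v, ((B v).card : ℝ) := by
    rw [hW]
    exact_mod_cast h4
  have h6 : ∀ v, ((B v).card : ℝ) ≤ (3 / 4 : ℝ) ^ s * W := by
    intro v
    have h7 := fail_card G hid hV κ I Q m hQ L v hL hpos hm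
    refine h7.trans ?_
    apply mul_le_mul_of_nonneg_right _ (Nat.cast_nonneg _)
    exact pow_le_pow_of_le_one (by norm_num) (by norm_num) (hs v)
  have h7 : ∑ v, ((B v).card : ℝ) ≤ (Fintype.card V : ℝ) * ((3 / 4 : ℝ) ^ s * W) := by
    calc ∑ v, ((B v).card : ℝ) ≤ ∑ _v : V, (3 / 4 : ℝ) ^ s * W := Finset.sum_le_sum (fun v _ => h6 v)
      _ = (Fintype.card V : ℝ) * ((3 / 4 : ℝ) ^ s * W) := by
          rw [Finset.sum_const, nsmul_eq_mul, Finset.card_univ]
  have h8 : (1 - (Fintype.card V : ℝ) * (3 / 4 : ℝ) ^ s) * W =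
      W - (Fintype.card V : ℝ) * ((3 / 4 : ℝ) ^ s * W) := by ring
  rw [h8]
  linarith

end

end Pool.Agent.Lib.MP_ba713f_lc.MC
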