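import Pool.Agent.Lib.MP_ba713f_lc.MC.Gather
import Pool.Agent.Lib.MP_ba713f_lc.MC.Ldd

/-!
At a good scale a vertex is deep in its cluster with probability at least `1/4`.
-/

namespace Pool.Agent.Lib.MP_ba713f_lc.MC

/-- the distance from `a` to `b`, truncated at `D` -/
def dN (N : ℕ → Finset ℕ) (D a b : ℕ) : ℕ :=
  ((Finset.range D).filter (fun t => b ∉ ball N t a)).card

theorem dN_le_iff (N : ℕ → Finset ℕ) {D a b t : ℕ} (ht : t < D) :
    dN N D a b ≤ t ↔ b ∈ ball N t a := by
  constructor
  · intro h
    by_contra hb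
    have h1 : Finset.range (t + 1) ⊆ (Finset.range D).filter (fun t => b ∉ ball N t a) := by
      intro s hs
      rw [Finset.mem_range] at hs
      rw [Finset.mem_filter, Finset.mem_range]
      exact ⟨by omega, fun hc => hb (ball_mono N (by omega) a hc)⟩
    have h2 := Finset.card_le_card h1
    rw [Finset.card_range] at h2
    unfold dN at h
    omega
  · intro hb
    have h1 : (Finset.range D).filter (fun t => b ∉ ball N t a) ⊆ Finset.range t := by
      intro s hs
      rw [Finset.mem_filter] at hs
      rw [Finset.mem_range]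
      by_contra hc
      exact hs.2 (ball_mono N (by omega) a hb)
    have h2 := Finset.card_le_card h1
    rw [Finset.card_range] at h2
    exact h2

theorem ff_eq (P : Inst) {κ i q a v D : ℕ} (hD : 2 * rad κ i ≤ D) :
    ff P κ i q a v = shift P κ i q a - dN P.N D v a := by
  have hS := shift_le P κ i q a
  unfold ff
  have h1 : (Finset.range (shift P κ i q a)).filter (fun t => a ∈ ball P.N t v) =
      Finset.Ico (dN P.N D v a) (shift P κ i q a) := by
    ext t
    rw [Finset.mem_filter, Finset.mem_range, Finset.mem_Ico]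
    constructor
    · rintro ⟨h1, h2⟩
      exact ⟨(dN_le_iff P.N (by omega)).2 h2, h1⟩
    · rintro ⟨h1, h2⟩
      exact ⟨h2, (dN_le_iff P.N (by omega)).1 h1⟩
  rw [h1, Nat.card_Ico]

theorem rad_succ (κ i : ℕ) : rad κ (i + 1) = 5 * rad κ i := by
  unfold rad
  ring

/-- `i` is a good scale for `a`. -/
def Good (N : ℕ → Finset ℕ) (κ i a : ℕ) : Prop :=
  Nat.log 2 (ball N (rad κ (i + 1)) a).card ≤ Nat.log 2 (ball N (rad κ i) a).card + κ

open Classical in
/-- There are few bad scales. -/
theorem bad_count (N : ℕ → Finset ℕ) (κ a I : ℕ) :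
    (κ + 1) * ((Finset.range I).filter (fun i => ¬ Good N κ i a)).card ≤
      Nat.log 2 (ball N (rad κ I) a).card := by
  induction I with
  | zero => simp
  | succ I ih =>
    rw [Finset.range_add_one, Finset.filter_insert]
    by_cases h : Good N κ I a
    · rw [if_neg (by simpa using h)]
      refine ih.trans (Nat.log_mono_right (Finset.card_le_card (ball_mono N ?_ a)))
      rw [rad_succ]
      omega
    · rw [if_pos h, Finset.card_insert_of_notMem (by simp)]
      unfold Good at h
      have : (κ + 1) * (((Finset.range I).filter (fun i => ¬ Good N κ i a)).card + 1) =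
        (κ + 1) * ((Finset.range I).filter (fun i => ¬ Good N κ i a)).card + (κ + 1) := by ring
      rw [this]
      omega

section

variable {V : Type} [Fintype V] (G : SimpleGraph V) {id : V → ℕ}

/-- the weight of a vertex -/
noncomputable def wV (id : V → ℕ) (κ i : ℕ) (x : V) : ℕ :=
  Nat.log 2 (ball (pushN G id) (4 * rad κ i) (id x)).card

/-- the distance from `v` -/
noncomputable def dV (id : V → ℕ) (κ i : ℕ) (v x : V) : ℕ :=
  dN (pushN G id) (2 * rad κ i + 1) (id v) (id x)

theorem ball_range (hid : Function.Injective id) (t : ℕ) (v : V) {b : ℕ}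
    (hb : b ∈ ball (pushN G id) t (id v)) : ∃ x, b = id x := by
  obtain ⟨u, _, hu⟩ := (mem_ball_pushN G hid t v b).1 hb
  exact ⟨u, hu⟩

theorem card_ball_le (hid : Function.Injective id) (t : ℕ) (v : V) :
    (ball (pushN G id) t (id v)).card ≤ Fintype.card V := by
  classical
  have h : ball (pushN G id) t (id v) ⊆ Finset.univ.image id := by
    intro b hb
    obtain ⟨x, rfl⟩ := ball_range G hid t v hb
    exact Finset.mem_image_of_mem _ (Finset.mem_univ x)
  calc (ball (pushN G id) t (id v)).card ≤ (Finset.univ.image id).card := Finset.card_le_card h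
    _ ≤ (Finset.univ : Finset V).card := Finset.card_image_le
    _ = Fintype.card V := Finset.card_univ

theorem card_filter_ball (hid : Function.Injective id) (t : ℕ) (v : V) :
    (Finset.univ.filter (fun x : V => id x ∈ ball (pushN G id) t (id v))).card =
      (ball (pushN G id) t (id v)).card := by
  classical
  have h : ball (pushN G id) t (id v) =
      (Finset.univ.filter (fun x : V => id x ∈ ball (pushN G id) t (id v))).image id := by
    ext b
    rw [Finset.mem_image]
    constructor
    · intro hb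
      obtain ⟨x, rfl⟩ := ball_range G hid t v hb
      exact ⟨x, Finset.mem_filter.2 ⟨Finset.mem_univ _, hb⟩, rfl⟩
    · rintro ⟨x, hx, rfl⟩
      exact (Finset.mem_filter.1 hx).2
  have h2 := Finset.card_image_of_injective
    (Finset.univ.filter (fun x : V => id x ∈ ball (pushN G id) t (id v))) hid
  rw [← h] at h2
  exact h2.symm

theorem H1_holds (hid : Function.Injective id) (κ i : ℕ) (v : V) :
    ∑ x ∈ Finset.univ.filter (fun x => dV G id κ i v x < 5 ^ (i + 1) * (2 * κ + 14)),
      (1 / 2 : ℝ) ^ (wV G id κ i x) ≤ 2 := by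
  classical
  set b := (ball (pushN G id) (2 * rad κ i) (id v)).card with hb
  have hbpos : 0 < b := Finset.card_pos.2 ⟨id v, mem_ball_self _ _ _⟩
  have hrad : 5 ^ (i + 1) * (2 * κ + 14) = 2 * rad κ i := by unfold rad; ring
  rw [hrad]
  have hsub : Finset.univ.filter (fun x => dV G id κ i v x < 2 * rad κ i) ⊆
      Finset.univ.filter (fun x : V => id x ∈ ball (pushN G id) (2 * rad κ i) (id v)) := by
    intro x hx
    rw [Finset.mem_filter] at hx ⊢
    refine ⟨hx.1, ?_⟩
    exact (dN_le_iff (pushN G id) (by omega)).1 (Nat.le_of_lt hx.2)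
  have hterm : ∀ x ∈ Finset.univ.filter (fun x => dV G id κ i v x < 2 * rad κ i),
      (1 / 2 : ℝ) ^ (wV G id κ i x) ≤ 2 / b := by
    intro x hx
    have hx' := (Finset.mem_filter.1 (hsub hx)).2
    have h1 : ball (pushN G id) (2 * rad κ i) (id v) ⊆
        ball (pushN G id) (4 * rad κ i) (id x) := by
      intro y hy
      have h2 := ball_symm (pushN G id) (pushN_symm G hid) hx'
      have h3 := ball_trans (pushN G id) h2 hy
      exact ball_mono _ (by omega) _ h3
    have h2 := Finset.card_le_card h1
    have h3 : (ball (pushN G id) (4 * rad κ i) (id x)).card < 2 ^ (wV G id κ i x + 1) := by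
      unfold wV
      exact Nat.lt_pow_succ_log_self (by norm_num) _
    have h4 : b ≤ 2 * 2 ^ (wV G id κ i x) := by
      rw [pow_succ] at h3
      omega
    have h5 : (b : ℝ) ≤ 2 * 2 ^ (wV G id κ i x) := by exact_mod_cast h4
    have h6 : (0 : ℝ) < b := by exact_mod_cast hbpos
    have h7 : (0 : ℝ) < 2 ^ (wV G id κ i x) := by positivity
    rw [one_div, inv_pow, inv_eq_one_div, div_le_div_iff₀ h7 h6]
    linarith
  calc ∑ x ∈ Finset.univ.filter (fun x => dV G id κ i v x < 2 * rad κ i),
      (1 / 2 : ℝ) ^ (wV G id κ i x)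
      ≤ ∑ _x ∈ Finset.univ.filter (fun x => dV G id κ i v x < 2 * rad κ i), (2 / b : ℝ) :=
        Finset.sum_le_sum hterm
    _ = ((Finset.univ.filter (fun x => dV G id κ i v x < 2 * rad κ i)).card : ℝ) * (2 / b) := by
        rw [Finset.sum_const, nsmul_eq_mul]
    _ ≤ (b : ℝ) * (2 / b) := by
        apply mul_le_mul_of_nonneg_right _ (by positivity)
        have := Finset.card_le_card hsub
        rw [card_filter_ball G hid] at this
        exact_mod_cast this
    _ = 2 := by
        have h6 : (0 : ℝ) < b := by exact_mod_cast hbpos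
        field_simp

theorem H2_holds (hid : Function.Injective id) (κ i : ℕ) (v : V)
    (hg : Good (pushN G id) κ i (id v)) :
    (1 / 2 : ℝ) ^ κ ≤
      ∑ x ∈ Finset.univ.filter (fun x => dV G id κ i v x ≤ 5 ^ (i + 1) * (κ + 7)),
        (1 / 2 : ℝ) ^ (wV G id κ i x) := by
  classical
  set b := (ball (pushN G id) (rad κ i) (id v)).card with hb
  have hbpos : 0 < b := Finset.card_pos.2 ⟨id v, mem_ball_self _ _ _⟩
  have hrad : 5 ^ (i + 1) * (κ + 7) = rad κ i := rfl
  rw [hrad]
  have heq : Finset.univ.filter (fun x => dV G id κ i v x ≤ rad κ i) =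
      Finset.univ.filter (fun x : V => id x ∈ ball (pushN G id) (rad κ i) (id v)) := by
    apply Finset.filter_congr
    intro x _
    exact dN_le_iff (pushN G id) (by omega)
  rw [heq]
  have hterm : ∀ x ∈ Finset.univ.filter
      (fun x : V => id x ∈ ball (pushN G id) (rad κ i) (id v)),
      (1 / 2 : ℝ) ^ κ / b ≤ (1 / 2 : ℝ) ^ (wV G id κ i x) := by
    intro x hx
    have hx' := (Finset.mem_filter.1 hx).2
    have h1 : ball (pushN G id) (4 * rad κ i) (id x) ⊆
        ball (pushN G id) (rad κ (i + 1)) (id v) := by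
      intro y hy
      have h3 := ball_trans (pushN G id) hx' hy
      rw [rad_succ]
      exact ball_mono _ (by omega) _ h3
    have h2 : wV G id κ i x ≤ Nat.log 2 b + κ := by
      unfold wV
      exact (Nat.log_mono_right (Finset.card_le_card h1)).trans hg
    have h3 : 2 ^ Nat.log 2 b ≤ b := Nat.pow_log_le_self 2 (by omega)
    have h4 : (2 : ℝ) ^ Nat.log 2 b ≤ b := by exact_mod_cast h3
    have h5 : (1 / 2 : ℝ) ^ (Nat.log 2 b + κ) ≤ (1 / 2 : ℝ) ^ (wV G id κ i x) :=
      pow_le_pow_of_le_one (by norm_num) (by norm_num) h2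
    refine le_trans ?_ h5
    have h6 : (0 : ℝ) < b := by exact_mod_cast hbpos
    have h7 : (0 : ℝ) < 2 ^ Nat.log 2 b := by positivity
    rw [pow_add, div_eq_mul_inv, mul_comm]
    apply mul_le_mul_of_nonneg_right _ (by positivity)
    rw [one_div, inv_pow]
    exact inv_anti₀ h7 h4
  calc (1 / 2 : ℝ) ^ κ = (b : ℝ) * ((1 / 2 : ℝ) ^ κ / b) := by
        have h6 : (0 : ℝ) < b := by exact_mod_cast hbpos
        field_simp
    _ = ∑ _x ∈ Finset.univ.filter (fun x : V => id x ∈ ball (pushN G id) (rad κ i) (id v)),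
          ((1 / 2 : ℝ) ^ κ / b) := by
        rw [Finset.sum_const, nsmul_eq_mul, card_filter_ball G hid]
    _ ≤ _ := Finset.sum_le_sum hterm

end

end Pool.Agent.Lib.MP_ba713f_lc.MC
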